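import Pool.Agent.H17.Z12.GenP
import Pool.Agent.H13.Z12.Defs6

/-!
Orthogonality codes (MP_1e71f9_co), 32 bits: the sign vector (bits 0-10 and 31), the number of the
complement of the 7-set (bits 11-20, not zero), the number of the 5-set (bits 21-30, not zero). The
signs of the circuit are changed if the sign vector has a bit outside of the common support.
-/

set_option autoImplicit false
set_option maxRecDepth 10000

namespace Pool.Agent.H17.Z12.P

open Pool.Agent.H17.Z12
open Pool.Agent.H13.Z12.B3 (tr)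
open Pool.Agent.H13.Z12.B6 (fx)

noncomputable section

def tO (c : Nat) : Nat :=
  Nat.lor (Nat.land c (nat_lit 2047)) (Nat.land (Nat.shiftRight c (nat_lit 20)) (nat_lit 2048))

/-- the literals of the cocircuit -/
def oa (t y z : Nat) : Nat :=
  Nat.shiftLeft (Nat.land (Nat.land (Nat.lor (SL t) (SH t)) (MV z)) (MV y)) (AV z)

/-- the literals of the circuit -/
def ob (t y z : Nat) : Nat :=
  Nat.shiftRight (Nat.shiftLeft (Nat.land (Nat.land (Nat.lor (KL t) (KH t)) (MK z)) (MK y)) (CV y)) (nat_lit 2048)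

def oe (t J : Nat) : Nat :=
  @Bool.rec (fun _ => Nat) (nat_lit 4095) (nat_lit 0) (Nat.beq (Nat.land t (Nat.xor (nat_lit 4095) J)) (nat_lit 0))

def on3 (t y z : Nat) : Nat :=
  fx (Nat.lor (oa (Nat.xor t (IV z)) y z)
    (ob (Nat.xor (Nat.xor t (oe t (Nat.land (CV y) (CV z)))) (IK y)) y z))

def on2 (c y z : Nat) (_ : Nat) : Nat := on3 (tO c) y z

def on1 (c y : Nat) (_ : Nat) : Nat :=
  @Nat.rec (fun _ => Nat) tr (on2 c y) (Nat.land (Nat.shiftRight c (nat_lit 10)) (nat_lit 0x1FF800))

/-- orthogonality clause -/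
def on (c : Nat) : Nat := @Nat.rec (fun _ => Nat) tr (on1 c) (Nat.land c (nat_lit 0x1FF800))

end

end Pool.Agent.H17.Z12.P
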