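import Pool.Agent.H17.Z12.GenN

/-!
Cocircuit, circuit and vertex codes (MP_1e71f9_co), 23 bits: the cell (bits 0-10), the number of
the 5-set `A` (bits 11-20, not zero), change of all signs (bit 21), kind (bit 22): 0 cocircuit with
the 5-set `A`, 1 circuit on the complement of `A`. The vertex mask consists of the seven literals
of the clause and of the literals of the 32 cells around the vertex, negated.
-/

set_option autoImplicit false
set_option maxRecDepth 10000

namespace Pool.Agent.H17.Z12.P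

open Pool.Agent.H17.Z12

open Pool.Agent.H28.Z12 (rev ccH)
open Pool.Agent.H13.Z12.B3 (tr)

noncomputable section

def cP (A : Nat) : Nat := Nat.xor (nat_lit 4095) A

/-- the sign vector of a code -/
def tS (c : Nat) : Nat :=
  Nat.xor (Nat.land c (nat_lit 2047)) (Nat.mul (nat_lit 4095) (Nat.land (Nat.shiftRight c (nat_lit 21)) (nat_lit 1)))

def CV (y : Nat) : Nat := cP (AV y)

/-- parities of the 7-set -/
def IK (y : Nat) : Nat := Nat.xor (IV y) (nat_lit 1365)

/-- the positions in the 7-set -/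
def MK (y : Nat) : Nat := Nat.mul mm (rev (CV y))

def kl0 : Nat := ccH (rev (nat_lit 63)) (rev (nat_lit 0))
def kl1 (v : Nat) (_ : Nat) : Nat := ccH (rev (nat_lit 63)) (rev (Nat.succ v))
def kh0 : Nat := ccH (rev (nat_lit 4032)) (rev (nat_lit 0))
def kh1 (v : Nat) (_ : Nat) : Nat :=
  ccH (rev (nat_lit 4032)) (rev (Nat.shiftLeft (Nat.succ v) (nat_lit 6)))
def KL (t : Nat) : Nat := @Nat.rec (fun _ => Nat) kl0 kl1 (Nat.land t (nat_lit 63))
def KH (t : Nat) : Nat := @Nat.rec (fun _ => Nat) kh0 kh1 (Nat.shiftRight t (nat_lit 6))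

/-- the literals at the 7-set `C`, `t` the signs times the parities -/
def kn2 (t C M : Nat) : Nat :=
  Nat.shiftRight (Nat.shiftLeft (Nat.land (Nat.lor (KL t) (KH t)) M) C) (nat_lit 2048)

def kn1 (c y : Nat) (_ : Nat) : Nat :=
  Nat.lor (kn2 (Nat.xor (tS c) (IK y)) (CV y) (MK y))
    (Nat.shiftLeft (Nat.pow (nat_lit 2) (nat_lit 12288)) (Nat.land c (nat_lit 2047)))

/-- circuit clause -/
def kn (c : Nat) : Nat := @Nat.rec (fun _ => Nat) tr (kn1 c) (Nat.land c (nat_lit 0x1FF800))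

/-- cocircuit or circuit clause -/
def pn (c : Nat) : Nat :=
  @Bool.rec (fun _ => Nat) (kn c) (cn c) (Nat.beq (Nat.land (Nat.shiftRight c (nat_lit 22)) (nat_lit 1)) (nat_lit 0))

def dst (A b x : Nat) : Nat := Nat.lor x (Nat.shiftLeft x (Nat.land A b))

/-- the subsets of `A` -/
def ds (A : Nat) : Nat :=
  dst A (nat_lit 2048) (dst A (nat_lit 1024) (dst A (nat_lit 512) (dst A (nat_lit 256) (dst A (nat_lit 128)
    (dst A (nat_lit 64) (dst A (nat_lit 32) (dst A (nat_lit 16) (dst A (nat_lit 8) (dst A (nat_lit 4)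
      (dst A (nat_lit 2) (dst A (nat_lit 1) (nat_lit 1))))))))))))

def nF2 (D t C : Nat) : Nat :=
  Nat.land (Nat.lor (Nat.shiftLeft D (Nat.land t C)) (Nat.shiftLeft D (Nat.land (Nat.xor t (nat_lit 4095)) C)))
    (Nat.sub (Nat.pow (nat_lit 2) (nat_lit 2048)) (nat_lit 1))

/-- the positions of the sign vectors which agree with `t` outside of `A` -/
def nF (A t : Nat) : Nat := nF2 (ds A) t (cP A)

def DV (y : Nat) : Nat := ds (AV y)

def vn2 (t y : Nat) : Nat :=
  Nat.lor (cn2 (Nat.xor t (IV y)) (AV y) (MV y)) (Nat.shiftLeft (nF2 (DV y) t (CV y)) (nat_lit 12288))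

def vn1 (c y : Nat) (_ : Nat) : Nat := vn2 (tS c) y

def vC (c : Nat) : Nat := @Nat.rec (fun _ => Nat) tr (vn1 c) (Nat.land c (nat_lit 0x1FF800))

def vk2 (t y : Nat) : Nat :=
  Nat.lor (kn2 (Nat.xor t (IK y)) (CV y) (MK y)) (Nat.shiftLeft (nF2 (DV y) t (CV y)) (nat_lit 8192))

def vk1 (c y : Nat) (_ : Nat) : Nat := vk2 (tS c) y

def vK (c : Nat) : Nat := @Nat.rec (fun _ => Nat) tr (vk1 c) (Nat.land c (nat_lit 0x1FF800))

/-- vertex mask -/
def vn (c : Nat) : Nat :=
  @Bool.rec (fun _ => Nat) (vK c) (vC c) (Nat.beq (Nat.land (Nat.shiftRight c (nat_lit 22)) (nat_lit 1)) (nat_lit 0))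

end

end Pool.Agent.H17.Z12.P
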