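import Mathlib
import Pool.Agent.H13.Z12.Sound6
import Pool.Agent.H17.Z12.GenN

/-!
Soundness of the fast generator (MP_1e71f9_co): for every code the generated set is good (some
position is not false, no complementary literals).
-/

set_option autoImplicit false
set_option maxRecDepth 10000

namespace Pool.Agent.H17.Z12

open Pool.Agent.H13.Z12 (lit Cl Fa)
open Pool.Agent.H13.Z12.B3 (tr M8 CL CL_of_Cl Ok range_all exists_bit shl_testBit lor_testBit
  bit_and_one grd_one)
open Pool.Agent.H13.Z12.B6 (Gq cl W0 Cs good_tr cl_testBit eM_range)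
open Pool.Agent.H28.Z12 (rlb ipM tpos T4 T5 spread genGP genCC gpQ gpT grd ccH spread_bit)

variable {χ T : ℕ → Bool}

/-- the patterns -/
def PN : Nat := nat_lit 0x37343b3807040b081d1e11122d2e2122

def pn (p : Nat) : Nat := Nat.land (Nat.shiftRight PN (Nat.mul 8 p)) 63

/-- Entry `r` of the list of 4-sets disjoint from number `i`. -/
def aa (i r : Nat) : Nat := Nat.land (Nat.shiftRight (ai i) (Nat.mul 16 r)) 4095

/-- Pattern `p` of the 4-set number `i`. -/
def mq (i p : Nat) : Nat := Nat.land (Nat.shiftRight (ptQ (qi i)) (Nat.mul 8192 p)) M8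

theorem q_check : ((List.range 512).all fun i =>
    Nat.beq (Nat.land (Nat.shiftRight T4 (qi i)) 1) 1) = true := by decide +kernel

theorem a_check : ((List.range 512).all fun i => (List.range 128).all fun r =>
    Nat.beq (Nat.land (Nat.shiftRight T4 (aa i r)) 1) 1 && Nat.beq (Nat.land (aa i r) (qi i)) 0) =
    true := by decide +kernel

theorem m_check : ((List.range 512).all fun i => (List.range 16).all fun p =>
    Nat.beq (mq i p) (gpQ (qi i) (pn p)) &&
      Nat.beq (Nat.land (mq i p) (Nat.shiftRight (mq i p) 4096)) 0) = true := by decide +kernel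

theorem pn_check : ((List.range 16).all fun p =>
    Nat.beq (Nat.land (Nat.shiftRight gpT (pn p)) 1) 1) = true := by decide +kernel

theorem land_lt_two_pow (x : ℕ) {m n : ℕ} (h : m < 2 ^ n) : Nat.land x m < 2 ^ n :=
  lt_of_le_of_lt (Nat.and_le_right (n := x) (m := m)) h

theorem qi_lt (i : ℕ) : qi i < 4096 := land_lt_two_pow (n := 12) _ (by norm_num)

theorem ixG_lt (x : ℕ) : ixG x < 512 :=
  Nat.or_lt_two_pow (n := 9) (land_lt_two_pow _ (by norm_num))
    (Nat.or_lt_two_pow (land_lt_two_pow _ (by norm_num)) (land_lt_two_pow _ (by norm_num)))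

/-- A mask of the form `m * 2 ^ k` selects a field. -/
theorem field (c k m : ℕ) : Nat.land c (2 ^ k * m) = 2 ^ k * Nat.land (Nat.shiftRight c k) m := by
  change c &&& (2 ^ k * m) = 2 ^ k * ((c >>> k) &&& m)
  apply Nat.eq_of_testBit_eq
  intro i
  rw [Nat.testBit_and, Nat.testBit_two_pow_mul, Nat.testBit_two_pow_mul, Nat.testBit_and,
    Nat.testBit_shiftRight]
  by_cases hi : k ≤ i
  · have : k + (i - k) = i := by omega
    rw [this]
    cases c.testBit i <;> simp [hi]
  · simp [hi]

theorem genGP_eq {A Q pat : ℕ} (hA : Nat.land (Nat.shiftRight T4 A) 1 = 1)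
    (hQ : Nat.land (Nat.shiftRight T4 Q) 1 = 1) (hd : Nat.land A Q = 0)
    (hp : Nat.land (Nat.shiftRight gpT pat) 1 = 1) :
    genGP A Q pat = Nat.shiftLeft (gpQ Q pat) A := by
  have e0 : genGP A Q pat = grd (Nat.land (Nat.land (Nat.shiftRight T4 A)
    (Nat.shiftRight T4 Q)) (Nat.land (Nat.shiftRight gpT pat)
      (Nat.sub 1 (Nat.land A Q)))) (Nat.shiftLeft (gpQ Q pat) A) := rfl
  have z : Nat.sub 1 (Nat.land A Q) = 1 := by rw [hd]
  have e3 : Nat.land (Nat.land (Nat.shiftRight T4 A) (Nat.shiftRight T4 Q)) 1 = 1 := by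
    change ((T4 >>> A) &&& (T4 >>> Q)) &&& 1 = 1
    change (T4 >>> A) &&& 1 = 1 at hA
    change (T4 >>> Q) &&& 1 = 1 at hQ
    rw [Nat.and_assoc, hQ, hA]
  rw [e0, z, hp, e3, grd_one]

/-- Shifting keeps the absence of complementary literals. -/
theorem shl_nocl {M : ℕ} (h : Nat.land M (Nat.shiftRight M 4096) = 0) (A : ℕ) {i : ℕ}
    (h1 : (Nat.shiftLeft M A).testBit i = true)
    (h2 : (Nat.shiftLeft M A).testBit (i + 4096) = true) : False := by
  change (M <<< A).testBit i = true at h1
  change (M <<< A).testBit (i + 4096) = true at h2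
  rw [Nat.testBit_shiftLeft, Bool.and_eq_true, decide_eq_true_iff] at h1 h2
  have e : i + 4096 - A = i - A + 4096 := by omega
  rw [e] at h2
  have : (Nat.land M (Nat.shiftRight M 4096)).testBit (i - A) = true := by
    change (M &&& (M >>> 4096)).testBit (i - A) = true
    rw [Nat.testBit_and, Nat.testBit_shiftRight, h1.2, Nat.add_comm 4096, h2.2]
    rfl
  rw [h, Nat.zero_testBit] at this
  exact Bool.noConfusion this

theorem cl_zero_of {D : ℕ} (h : ∀ i, D.testBit i = true → D.testBit (i + 4096) = true →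
    (i < 4096 ∨ (8192 ≤ i ∧ i < 12288)) → False) : cl D = 0 := by
  by_contra hc
  obtain ⟨i, hi⟩ := exists_bit hc
  rw [cl_testBit, Bool.and_eq_true, Bool.and_eq_true] at hi
  exact h i hi.1.1 hi.1.2 (eM_range hi.2)

/-- **Three term clauses.** -/
theorem good_gn {G : ℕ → ℕ} (hG : Ok χ T G) (c : ℕ) : Gq χ T (gn c) := by
  rcases hx : Nat.land c (nat_lit 0xE180F) with _ | y
  · have : gn c = tr := by
      unfold gn
      rw [hx]
      rfl
    rw [this]
    exact good_tr
  · obtain ⟨i, hi⟩ : ∃ i, i = ixG (Nat.succ y) := ⟨_, rfl⟩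
    obtain ⟨p, hp⟩ : ∃ p, p = Nat.land (Nat.shiftRight c 13) 15 := ⟨_, rfl⟩
    obtain ⟨r, hr⟩ : ∃ r, r = Nat.land (Nat.shiftRight c 4) 127 := ⟨_, rfl⟩
    have hi' : i < 512 := hi ▸ ixG_lt _
    have hp' : p < 16 := hp ▸ land_lt_two_pow (n := 4) _ (by norm_num)
    have hr' : r < 128 := hr ▸ land_lt_two_pow (n := 7) _ (by norm_num)
    have e1 : gn c = Nat.shiftLeft (mq i p) (aa i r) := by
      have e : gn c = gn1 c y (@Nat.rec (fun _ => Nat) tr (gn1 c) y) := by
        unfold gn
        rw [hx]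
      have f1 : Nat.land c 0x1E000 = Nat.mul 8192 p := by
        rw [hp]
        exact field c 13 15
      have f2 : Nat.land c 0x7F0 = Nat.mul 16 r := by
        rw [hr]
        exact field c 4 127
      rw [e]
      change Nat.shiftLeft (Nat.land (Nat.shiftRight (ptQ (qi (ixG (Nat.succ y))))
        (Nat.land c 0x1E000)) M8) (Nat.land (Nat.shiftRight (ai (ixG (Nat.succ y)))
          (Nat.land c 0x7F0)) 4095) = _
      rw [f1, f2, ← hi]
      rfl
    have k1 := Nat.eq_of_beq_eq_true (range_all q_check i hi')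
    have k2 := range_all (range_all a_check i hi') r hr'
    rw [Bool.and_eq_true] at k2
    have k3 := range_all (range_all m_check i hi') p hp'
    rw [Bool.and_eq_true] at k3
    have k4 := Nat.eq_of_beq_eq_true (range_all pn_check p hp')
    have k5 := Nat.eq_of_beq_eq_true k3.1
    have k6 := Nat.eq_of_beq_eq_true k3.2
    refine ⟨?_, Or.inr ?_⟩
    · rw [e1, k5, ← genGP_eq (Nat.eq_of_beq_eq_true k2.1) k1 (Nat.eq_of_beq_eq_true k2.2) k4]
      exact CL_of_Cl (hG.gp _ _ _ (qi_lt i) (land_lt_two_pow (n := 6) _ (by norm_num)))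
    · rw [e1]
      exact cl_zero_of fun j h1 h2 _ => shl_nocl k6 _ h1 h2

/-! Cocircuit clauses. -/

theorem v_check : ((List.range 1024).all fun i =>
    Nat.beq (Nat.land (Nat.shiftRight T5 (Nat.land (vi i) 4095)) 1) 1 &&
      Nat.beq (Nat.shiftRight (vi i) 12) (ipM (Nat.land (vi i) 4095))) = true := by decide +kernel

theorem t_check : ((List.range 2048).all fun s => (List.range 2).all fun f =>
    Nat.beq (tpos (Nat.xor s (Nat.mul 4095 f))) s && Nat.blt (Nat.xor s (Nat.mul 4095 f)) 4096) =
    true := by decide +kernel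

/-- all positions of `spread` -/
def S12 : Nat := spread 4095

theorem sp_check : ((List.range 4096).all fun x =>
    Nat.beq (Nat.land (spread x) S12) (spread x)) = true := by decide +kernel

theorem s12_check : ((List.range 2112).all fun i => (!(S12.testBit i)) ||
    ((List.range 12).any fun j => Nat.beq i (Nat.pow 2 j))) = true := by decide +kernel

theorem S12_lt : S12 < 2 ^ 2112 := by decide +kernel

theorem sp_bit {x i : ℕ} (hx : x < 4096) (h : (spread x).testBit i = true) :
    ∃ j, j < 12 ∧ i = 2 ^ j ∧ x.testBit j = true := by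
  have h1 := Nat.eq_of_beq_eq_true (range_all sp_check x hx)
  have h2 : S12.testBit i = true := by
    have : (Nat.land (spread x) S12).testBit i = true := by rw [h1, h]
    change (spread x &&& S12).testBit i = true at this
    rw [Nat.testBit_and, Bool.and_eq_true] at this
    exact this.2
  have hi : i < 2112 := by
    by_contra hc
    have : S12.testBit i = false := Nat.testBit_lt_two_pow (lt_of_lt_of_le S12_lt
      (Nat.pow_le_pow_right (by norm_num) (by omega)))
    rw [this] at h2
    exact Bool.noConfusion h2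
  have h3 := range_all s12_check i hi
  rw [h2] at h3
  have h4 : ((List.range 12).any fun j => Nat.beq i (Nat.pow 2 j)) = true := h3
  obtain ⟨j, hj, hj'⟩ := List.any_eq_true.1 h4
  have hj1 : j < 12 := List.mem_range.1 hj
  have hj2 : i = 2 ^ j := Nat.eq_of_beq_eq_true hj'
  refine ⟨j, hj1, hj2, ?_⟩
  rw [← spread_bit hx hj1, ← hj2, h]

theorem pow_lt' {j : ℕ} (hj : j < 12) : 2 ^ j < 4096 := by
  calc 2 ^ j < 2 ^ 12 := Nat.pow_lt_pow_right (by norm_num) hj
    _ = 4096 := by norm_num

/-- Bits of `spread`. -/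
theorem sp_eq {x : ℕ} (hx : x < 4096) (i : ℕ) :
    ((spread x).testBit i = true ↔ ∃ j, j < 12 ∧ i = 2 ^ j ∧ x.testBit j = true) := by
  constructor
  · exact sp_bit hx
  · rintro ⟨j, hj, rfl, hb⟩
    rw [spread_bit hx hj, hb]

theorem sp_ge {x i : ℕ} (hx : x < 4096) (hi : 4096 ≤ i) : (spread x).testBit i = false := by
  by_contra hc
  rw [Bool.not_eq_false] at hc
  obtain ⟨j, hj, rfl, _⟩ := sp_bit hx hc
  have := pow_lt' hj
  omega

theorem sp_lt {x : ℕ} (hx : x < 4096) : spread x < 2 ^ 4096 := by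
  apply Nat.lt_pow_two_of_testBit
  intro i hi
  exact sp_ge hx hi

/-- Bits of `ccH`. -/
theorem ccH_bit {J U : ℕ} (hJ : J < 4096) (hU : U < 4096) (i : ℕ) :
    (ccH (spread J) (spread U)).testBit i =
      if i < 4096 then xor ((spread J).testBit i) ((spread U).testBit i)
      else (spread U).testBit (i - 4096) := by
  have e : ccH (spread J) (spread U) = (spread J ^^^ spread U) ||| (spread U <<< 4096) := rfl
  rw [e, Nat.testBit_or, Nat.testBit_xor, Nat.testBit_shiftLeft]
  by_cases hi : i < 4096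
  · have : ¬ (4096 ≤ i) := by omega
    simp [hi, this]
  · have h1 := sp_ge hJ (i := i) (by omega)
    have h2 := sp_ge hU (i := i) (by omega)
    rw [if_neg hi, h1, h2]
    have : 4096 ≤ i := by omega
    simp [this]

theorem mm_bit {J : ℕ} (hJ : J < 4096) (i : ℕ) : (Nat.mul mm (spread J)).testBit i =
    if i < 4096 then (spread J).testBit i else (spread J).testBit (i - 4096) := by
  have e : Nat.mul mm (spread J) = 2 ^ 4096 * spread J + spread J := by
    have : mm = 1 + 2 ^ 4096 := rfl
    rw [this]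
    change (1 + 2 ^ 4096) * spread J = _
    ring
  rw [e, Nat.testBit_two_pow_mul_add _ (sp_lt hJ)]

theorem land_bit (a b i : ℕ) : (Nat.land a b).testBit i = (a.testBit i && b.testBit i) :=
  Nat.testBit_and a b i

theorem land_lt4096 {a : ℕ} (b : ℕ) (ha : a < 4096) : Nat.land a b < 4096 :=
  lt_of_le_of_lt (Nat.and_le_left (n := a) (m := b)) ha

theorem b63 {j : ℕ} : Nat.testBit 63 j = decide (j < 6) := by
  have : (63 : ℕ) = 2 ^ 6 - 1 := by norm_num
  rw [this, Nat.testBit_two_pow_sub_one]

theorem b4032 {j : ℕ} (hj : j < 12) : Nat.testBit 4032 j = decide (6 ≤ j) := by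
  interval_cases j <;> rfl

theorem lo_bit (t j : ℕ) : (Nat.land t 63).testBit j = (t.testBit j && decide (j < 6)) := by
  rw [land_bit, b63]

theorem hi_bit (t j : ℕ) : (Nat.shiftLeft (Nat.shiftRight t 6) 6).testBit j =
    (t.testBit j && decide (6 ≤ j)) := by
  change ((t >>> 6) <<< 6).testBit j = _
  rw [Nat.testBit_shiftLeft, Nat.testBit_shiftRight]
  by_cases h : 6 ≤ j
  · have : 6 + (j - 6) = j := by omega
    rw [this]
    simp [h]
  · simp [h]

theorem hi_lt {t : ℕ} (ht : t < 4096) : Nat.shiftLeft (Nat.shiftRight t 6) 6 < 4096 := by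
  have e : Nat.shiftLeft (Nat.shiftRight t 6) 6 = t / 64 * 64 := by
    change (t >>> 6) <<< 6 = _
    rw [Nat.shiftRight_eq_div_pow, Nat.shiftLeft_eq]
  rw [e]
  omega

/-- The literals are the union of two halves, restricted to the complement of the 5-set. -/
theorem core_eq {t J : ℕ} (ht : t < 4096) (hJ : J < 4096) :
    Nat.land (Nat.lor (ccH (spread 63) (spread (Nat.land t 63)))
      (ccH (spread 4032) (spread (Nat.shiftLeft (Nat.shiftRight t 6) 6)))) (Nat.mul mm (spread J)) =
    ccH (spread J) (spread (Nat.land t J)) := by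
  have hl : Nat.land t 63 < 4096 := land_lt4096 _ ht
  have hh := hi_lt ht
  have hu : Nat.land t J < 4096 := land_lt4096 _ ht
  apply Nat.eq_of_testBit_eq
  intro i
  rw [land_bit, lor_testBit, ccH_bit (by norm_num) hl, ccH_bit (by norm_num) hh, ccH_bit hJ hu,
    mm_bit hJ]
  have key : ∀ k, (∃ j, j < 12 ∧ k = 2 ^ j) ∨ ∀ x < 4096, (spread x).testBit k = false := by
    intro k
    by_cases h : ∃ j, j < 12 ∧ k = 2 ^ j
    · exact Or.inl h
    · right
      intro x hx
      by_contra hc
      rw [Bool.not_eq_false] at hc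
      obtain ⟨j, hj, hk, _⟩ := sp_bit hx hc
      exact h ⟨j, hj, hk⟩
  by_cases hi : i < 4096
  · rw [if_pos hi, if_pos hi, if_pos hi, if_pos hi]
    rcases key i with ⟨j, hj, rfl⟩ | h0
    · rw [spread_bit (by norm_num) hj, spread_bit hl hj, spread_bit (by norm_num) hj,
        spread_bit hh hj, spread_bit hJ hj, spread_bit hu hj, lo_bit, hi_bit, land_bit, b63,
        b4032 hj]
      by_cases h6 : j < 6
      · have h6' : ¬ 6 ≤ j := by omega
        cases t.testBit j <;> cases J.testBit j <;> simp [h6, h6']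
      · have h6' : 6 ≤ j := by omega
        cases t.testBit j <;> cases J.testBit j <;> simp [h6, h6']
    · rw [h0 63 (by norm_num), h0 _ hl, h0 4032 (by norm_num), h0 _ hh, h0 _ hJ, h0 _ hu]
      rfl
  · rw [if_neg hi, if_neg hi, if_neg hi, if_neg hi]
    rcases key (i - 4096) with ⟨j, hj, hk⟩ | h0
    · rw [hk, spread_bit hl hj, spread_bit hh hj, spread_bit hJ hj, spread_bit hu hj, lo_bit,
        hi_bit, land_bit]
      by_cases h6 : j < 6
      · have h6' : ¬ 6 ≤ j := by omega
        cases t.testBit j <;> cases J.testBit j <;> simp [h6, h6']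
      · have h6' : 6 ≤ j := by omega
        cases t.testBit j <;> cases J.testBit j <;> simp [h6, h6']
    · rw [h0 _ hl, h0 _ hh, h0 _ hJ, h0 _ hu]
      rfl

theorem SL_eq (t : ℕ) : SL t = ccH (spread 63) (spread (Nat.land t 63)) := by
  unfold SL
  cases Nat.land t (nat_lit 63) with
  | zero => rfl
  | succ n => rfl

theorem SH_eq (t : ℕ) : SH t = ccH (spread 4032) (spread (Nat.shiftLeft (Nat.shiftRight t 6) 6)) := by
  unfold SH
  change (@Nat.rec (fun _ => Nat) sh0 sh1 (Nat.shiftRight t 6) : ℕ) = _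
  cases Nat.shiftRight t 6 with
  | zero => rfl
  | succ n => rfl

/-- No complementary literals in `ccH`. -/
theorem ccH_nocl {t J : ℕ} (ht : t < 4096) (hJ : J < 4096) :
    Nat.land (ccH (spread J) (spread (Nat.land t J)))
      (Nat.shiftRight (ccH (spread J) (spread (Nat.land t J))) 4096) = 0 := by
  have hu : Nat.land t J < 4096 := land_lt4096 _ ht
  apply Nat.eq_of_testBit_eq
  intro k
  rw [Nat.zero_testBit, land_bit]
  have e : (Nat.shiftRight (ccH (spread J) (spread (Nat.land t J))) 4096).testBit k =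
      (ccH (spread J) (spread (Nat.land t J))).testBit (4096 + k) := Nat.testBit_shiftRight _
  rw [e, ccH_bit hJ hu, ccH_bit hJ hu, if_neg (show ¬ (4096 + k < 4096) by omega),
    Nat.add_sub_cancel_left]
  by_cases hk : k < 4096
  · rw [if_pos hk]
    rcases hb : (spread (Nat.land t J)).testBit k with _ | _
    · rw [Bool.and_false]
    · obtain ⟨j, hj, hkj, hb2⟩ := sp_bit hu hb
      have : (spread J).testBit k = true := by
        rw [hkj, spread_bit hJ hj]
        rw [land_bit, Bool.and_eq_true] at hb2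
        exact hb2.2
      rw [this]
      rfl
  · rw [sp_ge hu (by omega), Bool.and_false]

theorem ccH_ge {J U i : ℕ} (hJ : J < 4096) (hU : U < 4096) (hi : 8192 ≤ i) :
    (ccH (spread J) (spread U)).testBit i = false := by
  rw [ccH_bit hJ hU, if_neg (by omega)]
  exact sp_ge hU (by omega)

/-- **Cocircuit clauses.** -/
theorem good_cn {G : ℕ → ℕ} (hG : Ok χ T G) (c : ℕ) : Gq χ T (cn c) := by
  rcases hx : Nat.land c (nat_lit 0x1FF800) with _ | y
  · have : cn c = tr := by
      unfold cn
      rw [hx]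
      rfl
    rw [this]
    exact good_tr
  · obtain ⟨i, hi⟩ : ∃ i, i = Nat.land (Nat.shiftRight (Nat.succ y) 11) 1023 := ⟨_, rfl⟩
    obtain ⟨s, hs⟩ : ∃ s, s = Nat.land c 2047 := ⟨_, rfl⟩
    obtain ⟨f, hf⟩ : ∃ f, f = Nat.land (Nat.shiftRight c 21) 1 := ⟨_, rfl⟩
    obtain ⟨A, hA⟩ : ∃ A, A = Nat.land (vi i) 4095 := ⟨_, rfl⟩
    obtain ⟨t, ht⟩ : ∃ t, t = Nat.xor s (Nat.mul 4095 f) := ⟨_, rfl⟩
    have hi' : i < 1024 := hi ▸ land_lt_two_pow (n := 10) _ (by norm_num)
    have hs' : s < 2048 := hs ▸ land_lt_two_pow (n := 11) _ (by norm_num)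
    have hf' : f < 2 := hf ▸ land_lt_two_pow (n := 1) _ (by norm_num)
    have hA' : A < 4096 := hA ▸ land_lt_two_pow (n := 12) _ (by norm_num)
    have k1 := range_all v_check i hi'
    rw [Bool.and_eq_true] at k1
    have k2 := range_all (range_all t_check s hs') f hf'
    rw [Bool.and_eq_true, Nat.blt_eq] at k2
    have k3 := Nat.eq_of_beq_eq_true k1.1
    have k4 := Nat.eq_of_beq_eq_true k1.2
    have k5 := Nat.eq_of_beq_eq_true k2.1
    rw [← hA] at k3 k4
    rw [← ht] at k5
    have ht' : t < 4096 := ht ▸ k2.2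
    have hJ : Nat.xor 4095 A < 4096 := Nat.xor_lt_two_pow (n := 12) (by norm_num) hA'
    have hv : Nat.xor t (ipM A) < 4096 := Nat.xor_lt_two_pow (n := 12) ht'
      (Pool.Agent.H28.Z12.ipM_lt hA')
    have e1 : cn c = Nat.lor (Nat.shiftLeft (ccH (spread (Nat.xor 4095 A))
        (spread (Nat.land (Nat.xor t (ipM A)) (Nat.xor 4095 A)))) A)
        (Nat.shiftLeft 1 (Nat.add 8192 s)) := by
      have e : cn c = cn1 c y (@Nat.rec (fun _ => Nat) tr (cn1 c) y) := by
        unfold cn
        rw [hx]
      have g1 : AV y = A := by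
        rw [hA, hi]
        rfl
      have g2 : IV y = ipM A := by
        have : IV y = Nat.shiftRight (vi i) 12 := by
          rw [hi]
          rfl
        rw [this, k4]
      have g3 : MV y = Nat.mul mm (spread (Nat.xor 4095 A)) := by
        rw [← g1]
        rfl
      have g4 : Nat.shiftLeft (Nat.pow 2 8192) s = Nat.shiftLeft 1 (Nat.add 8192 s) := by
        change (2 ^ 8192) <<< s = 1 <<< (8192 + s)
        rw [Nat.shiftLeft_eq, Nat.shiftLeft_eq, ← pow_add, one_mul]
      rw [e]
      change Nat.lor (cn2 (Nat.xor (Nat.xor (Nat.land c 2047) (Nat.mul 4095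
        (Nat.land (Nat.shiftRight c 21) 1))) (IV y)) (AV y) (MV y))
        (Nat.shiftLeft (Nat.pow 2 8192) (Nat.land c 2047)) = _
      rw [← hs, ← hf, ← ht, g2, g1, g3, g4]
      unfold cn2
      rw [SL_eq, SH_eq, core_eq hv hJ]
    have e2 : genCC A t = cn c := by
      have e' : genCC A t = grd (Nat.land (Nat.shiftRight T5 A) 1)
        (Nat.lor (Nat.shiftLeft (ccH (spread (Nat.xor 4095 A))
          (spread (Nat.land (Nat.xor t (ipM A)) (Nat.xor 4095 A)))) A)
          (Nat.shiftLeft 1 (Nat.add 8192 (tpos t)))) := rfl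
      rw [e', k3, k5, e1, grd_one]
    refine ⟨?_, Or.inr ?_⟩
    · rw [← e2]
      exact CL_of_Cl (hG.cc _ _ ht')
    · rw [e1]
      obtain ⟨M, hM⟩ : ∃ M, M = ccH (spread (Nat.xor 4095 A))
        (spread (Nat.land (Nat.xor t (ipM A)) (Nat.xor 4095 A))) := ⟨_, rfl⟩
      have hn := ccH_nocl hv hJ
      have hg : ∀ k, 8192 ≤ k → M.testBit k = false := fun k hk => by
        rw [hM]
        exact ccH_ge hJ (land_lt4096 _ hv) hk
      rw [← hM] at hn ⊢
      have hT : ∀ k, (Nat.shiftLeft 1 (Nat.add 8192 s)).testBit k = true → k = 8192 + s :=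
        fun k hk => Pool.Agent.H13.Z12.B3.one_shl_testBit hk
      have hS : ∀ k, (Nat.shiftLeft M A).testBit k = true → k < 12288 := by
        intro k hk
        by_contra hc
        change (M <<< A).testBit k = true at hk
        rw [Nat.testBit_shiftLeft, Bool.and_eq_true, hg _ (by omega)] at hk
        exact Bool.noConfusion hk.2
      refine cl_zero_of fun j h1 h2 hr => ?_
      rw [lor_testBit, Bool.or_eq_true] at h1 h2
      rcases h1 with h1 | h1
      · rcases h2 with h2 | h2
        · exact shl_nocl hn _ h1 h2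
        · have := hT _ h2
          omega
      · have q1 := hT _ h1
        rcases h2 with h2 | h2
        · have := hS _ h2
          omega
        · have := hT _ h2
          omega

end Pool.Agent.H17.Z12

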