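import Mathlib
import Pool.Agent.H17.Z12.GenNS
import Pool.Agent.H17.Z12.GenP

/-!
Soundness of the cocircuit, circuit and vertex codes (MP_1e71f9_co). The lemmas on the cells around
a vertex are those of H68/Z12/VB and Codes7.
-/

set_option autoImplicit false
set_option maxRecDepth 10000

namespace Pool.Agent.H17.Z12.P

open Pool.Agent.H17.Z12

open Pool.Agent.H13.Z12 (lit Cl Fa)
open Pool.Agent.H13.Z12.B3 (tr M8 CL CL_of_Cl Ok range_all exists_bit shl_testBit lor_testBit
  bit_and_one grd_one one_shl_testBit tr_bit)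
open Pool.Agent.H13.Z12.B6 (Gq cl W0 Cs good_tr cl_testBit eM_range)
open Pool.Agent.H28.Z12 (rlb ipM tpos T4 T5 T7 spread rev genGP genCC genKC gpQ gpT grd ccH
  spread_bit rev_bit ipM_lt)

variable {χ T : ℕ → Bool}

theorem lor_tb (a b i : ℕ) : (Nat.lor a b).testBit i = (a.testBit i || b.testBit i) :=
  Nat.testBit_or a b i

theorem shl_tb (a k i : ℕ) : (Nat.shiftLeft a k).testBit i = (decide (k ≤ i) && a.testBit (i - k)) :=
  Nat.testBit_shiftLeft a

theorem land_tb (a b i : ℕ) : (Nat.land a b).testBit i = (a.testBit i && b.testBit i) :=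
  Nat.testBit_and a b i

theorem xor_tb (a b i : ℕ) : (Nat.xor a b).testBit i = (a.testBit i ^^ b.testBit i) :=
  Nat.testBit_xor a b i

/-- `x ⊆ y` -/
def sub (x y : ℕ) : Prop := ∀ a, x.testBit a = true → y.testBit a = true

/-- one step: the submasks which use only the bits below `k` -/
theorem dst_spec {A k x : ℕ} (hx : ∀ i, x.testBit i = true → i < 2 ^ k ∧ sub i A) (i : ℕ)
    (hi : (dst A (2 ^ k) x).testBit i = true) : i < 2 ^ (k + 1) ∧ sub i A := by
  unfold dst at hi
  rw [lor_tb, Bool.or_eq_true] at hi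
  rcases hi with hi | hi
  · obtain ⟨h1, h2⟩ := hx i hi
    exact ⟨lt_of_lt_of_le h1 (Nat.pow_le_pow_right (by norm_num) (by omega)), h2⟩
  · rw [shl_tb, Bool.and_eq_true] at hi
    obtain ⟨h1, h2⟩ := hi
    have h1 := of_decide_eq_true h1
    obtain ⟨h3, h4⟩ := hx _ h2
    have hA : Nat.land A (2 ^ k) = 2 ^ k * (A.testBit k).toNat :=
      (Nat.and_two_pow A k).trans (Nat.mul_comm _ _)
    rw [hA] at h1 h2 h3 h4
    rcases hb : A.testBit k with _ | _
    · rw [hb] at h2 h3 h4
      simp only [Bool.toNat_false, Nat.mul_zero, Nat.sub_zero] at h2 h3 h4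
      exact ⟨lt_of_lt_of_le h3 (Nat.pow_le_pow_right (by norm_num) (by omega)), h4⟩
    · rw [hb] at h1 h2 h3 h4
      simp only [Bool.toNat_true, Nat.mul_one] at h1 h2 h3 h4
      have hi : i = 2 ^ k + (i - 2 ^ k) := by omega
      refine ⟨by rw [pow_succ]; omega, ?_⟩
      intro a ha
      rw [hi] at ha
      rcases lt_trichotomy a k with h5 | h5 | h5
      · rw [Nat.testBit_two_pow_add_gt h5] at ha
        exact h4 a ha
      · rw [h5]
        exact hb
      · have : (2 ^ k + (i - 2 ^ k)).testBit a = false := by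
          refine Nat.testBit_lt_two_pow (lt_of_lt_of_le (b := 2 ^ (k + 1)) ?_
            (Nat.pow_le_pow_right (by norm_num) (by omega)))
          rw [pow_succ]
          omega
        rw [this] at ha
        exact Bool.noConfusion ha

/-- **Submasks.** -/
theorem ds_bit {A D : ℕ} (h : (ds A).testBit D = true) : D < 4096 ∧ sub D A := by
  have h0 : ∀ i, (1 : ℕ).testBit i = true → i < 2 ^ 0 ∧ sub i A := by
    intro i hi
    rcases Nat.eq_zero_or_pos i with h0 | h0
    · subst h0
      exact ⟨by norm_num, fun a ha => by simp at ha⟩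
    · have : (1 : ℕ).testBit i = false := Nat.testBit_lt_two_pow
        (lt_of_lt_of_le (by norm_num : (1 : ℕ) < 2 ^ 1) (Nat.pow_le_pow_right (by norm_num) h0))
      rw [this] at hi
      exact Bool.noConfusion hi
  exact dst_spec (k := 11) (dst_spec (k := 10) (dst_spec (k := 9) (dst_spec (k := 8)
    (dst_spec (k := 7) (dst_spec (k := 6) (dst_spec (k := 5) (dst_spec (k := 4)
      (dst_spec (k := 3) (dst_spec (k := 2) (dst_spec (k := 1) (dst_spec (k := 0) h0))))))))))) D h

theorem add_eq_xor {x y : ℕ} (hx : x < 4096) (hy : y < 4096)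
    (h : ∀ a, x.testBit a = true → y.testBit a = true → False) : x + y = x ^^^ y := by
  have h0 : x &&& y = 0 := by
    apply Nat.eq_of_testBit_eq
    intro a
    rw [Nat.testBit_and, Nat.zero_testBit]
    rcases h5 : x.testBit a with _ | _
    · rfl
    · rcases h6 : y.testBit a with _ | _
      · rfl
      · exact (h a h5 h6).elim
  have h1 := BitVec.add_eq_or_of_and_eq_zero (BitVec.ofNat 13 x) (BitVec.ofNat 13 y) (by
    apply BitVec.eq_of_toNat_eq
    simp only [BitVec.toNat_and, BitVec.toNat_ofNat]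
    rw [Nat.mod_eq_of_lt (by omega), Nat.mod_eq_of_lt (by omega), h0])
  have h2 := congrArg BitVec.toNat h1
  simp only [BitVec.toNat_add, BitVec.toNat_or, BitVec.toNat_ofNat] at h2
  rw [Nat.mod_eq_of_lt (by omega : x < 2 ^ 13), Nat.mod_eq_of_lt (by omega : y < 2 ^ 13),
    Nat.mod_eq_of_lt (by omega : x + y < 2 ^ 13)] at h2
  rw [h2]
  apply Nat.eq_of_testBit_eq
  intro i
  rw [Nat.testBit_or, Nat.testBit_xor]
  have h3 : (x &&& y).testBit i = false := by rw [h0]; exact Nat.zero_testBit i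
  rw [Nat.testBit_and] at h3
  revert h3
  cases x.testBit i <;> cases y.testBit i <;> simp

theorem hib {t a : ℕ} (ht : t < 4096) (h : t.testBit a = true) : a < 12 := by
  by_contra hc
  have : t.testBit a = false := Nat.testBit_lt_two_pow (lt_of_lt_of_le ht
    (by simpa using Nat.pow_le_pow_right (n := 2) (by norm_num) (not_lt.mp hc)))
  rw [this] at h
  exact Bool.noConfusion h

theorem b4095 {a : ℕ} (ha : a < 12) : (4095 : ℕ).testBit a = true := by
  interval_cases a <;> decide

/-- a shifted set of submasks -/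
theorem shl_ds {A t i : ℕ} (ht : t < 4096)
    (h : (Nat.shiftLeft (ds A) (Nat.land t (Nat.xor (nat_lit 4095) A))).testBit i = true) :
    i < 4096 ∧ sub (t ^^^ i) A := by
  obtain ⟨x, hx⟩ : ∃ x, x = t &&& (4095 ^^^ A) := ⟨_, rfl⟩
  have hx' : Nat.land t (Nat.xor (nat_lit 4095) A) = x := hx.symm
  rw [hx', shl_tb, Bool.and_eq_true] at h
  obtain ⟨h1, h2⟩ := h
  have h1 := of_decide_eq_true h1
  obtain ⟨hD, hs⟩ := ds_bit h2
  have hxb : ∀ a, x.testBit a = (t.testBit a && (((4095 : ℕ).testBit a) ^^ (A.testBit a))) := by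
    intro a
    rw [hx, Nat.testBit_and, Nat.testBit_xor]
  have hxlt : x < 4096 := by
    rw [hx]
    exact lt_of_le_of_lt Nat.and_le_left ht
  have hi : i = x ^^^ (i - x) := by
    rw [← add_eq_xor hxlt hD]
    · omega
    · intro a ha hb
      have h3 := hs a hb
      rw [hxb, h3, Bool.and_eq_true] at ha
      rw [b4095 (hib ht ha.1)] at ha
      exact absurd ha.2 (by decide)
  refine ⟨?_, ?_⟩
  · rw [hi]
    exact Nat.xor_lt_two_pow (n := 12) hxlt hD
  · intro a ha
    by_contra hc
    rw [Bool.not_eq_true] at hc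
    have hz : (i - x).testBit a = false := by
      by_contra hcc
      rw [Bool.not_eq_false] at hcc
      rw [hs a hcc] at hc
      exact Bool.noConfusion hc
    rw [hi, Nat.testBit_xor, Nat.testBit_xor, hz, hxb, hc, Bool.xor_false, Bool.xor_false] at ha
    rcases ht' : t.testBit a with _ | _
    · rw [ht', Bool.false_and, Bool.false_xor] at ha
      exact Bool.noConfusion ha
    · rw [ht', b4095 (hib ht ht')] at ha
      exact absurd ha (by decide)

theorem tpos_low {i : ℕ} (hi : i < 2048) : tpos i = i := by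
  have e : tpos i = i ^^^ (4095 * (i >>> 11)) := rfl
  rw [e, Nat.shiftRight_eq_div_pow, Nat.div_eq_of_lt hi, Nat.mul_zero, Nat.xor_zero]

theorem tpos_high {i : ℕ} (hi : i < 2048) : tpos (i ^^^ 4095) = i := by
  have e : tpos (i ^^^ 4095) = (i ^^^ 4095) ^^^ (4095 * ((i ^^^ 4095) >>> 11)) := rfl
  have h1 : (i ^^^ 4095) >>> 11 = 1 := by
    rw [Nat.shiftRight_xor_distrib, Nat.shiftRight_eq_div_pow i, Nat.div_eq_of_lt hi]
    rfl
  rw [e, h1, Nat.mul_one, Nat.xor_assoc, Nat.xor_self, Nat.xor_zero]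

/-- **The cells around a vertex.** -/
theorem nF_bit {A t i : ℕ} (ht : t < 4096) (h : (nF A t).testBit i = true) :
    i < 2048 ∧ ∃ s, s < 4096 ∧ tpos s = i ∧ sub (t ^^^ s) A := by
  have h0 : (Nat.lor (Nat.shiftLeft (ds A) (Nat.land t (Nat.xor (nat_lit 4095) A)))
      (Nat.shiftLeft (ds A) (Nat.land (Nat.xor t (nat_lit 4095)) (Nat.xor (nat_lit 4095) A)))
      &&& (2 ^ 2048 - 1)).testBit i = true := h
  rw [Nat.testBit_and, Nat.testBit_two_pow_sub_one, Bool.and_eq_true] at h0
  have hi := of_decide_eq_true h0.2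
  have h1 := h0.1
  rw [lor_tb, Bool.or_eq_true] at h1
  refine ⟨hi, ?_⟩
  rcases h1 with h1 | h1
  · exact ⟨i, by omega, tpos_low hi, (shl_ds ht h1).2⟩
  · have ht' : t ^^^ 4095 < 4096 := Nat.xor_lt_two_pow (n := 12) ht (by norm_num)
    have h2 := (shl_ds (t := t ^^^ 4095) ht' h1).2
    refine ⟨i ^^^ 4095, Nat.xor_lt_two_pow (n := 12) (by omega) (by norm_num), tpos_high hi, ?_⟩
    have e : t ^^^ (i ^^^ 4095) = (t ^^^ 4095) ^^^ i := by
      rw [Nat.xor_comm i, ← Nat.xor_assoc]
    rw [e]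
    exact h2

theorem cP_lt {A : ℕ} (hA : A < 4096) : cP A < 4096 :=
  Nat.xor_lt_two_pow (n := 12) (by norm_num) hA

theorem cP_bit {A a : ℕ} (ha : a < 12) : (cP A).testBit a = !(A.testBit a) := by
  have e : cP A = 4095 ^^^ A := rfl
  rw [e, Nat.testBit_xor, b4095 ha, Bool.true_xor]

theorem cP_true {A a : ℕ} (hA : A < 4096) (h : (cP A).testBit a = true) :
    a < 12 ∧ A.testBit a = false := by
  have ha := hib (cP_lt hA) h
  rw [cP_bit ha] at h
  exact ⟨ha, by simpa using h⟩

/-- `t` and `s` agree outside of `A` -/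
theorem land_eq {A t s m : ℕ} (hA : A < 4096) (h : sub (t ^^^ s) A) :
    Nat.land (Nat.xor s m) (cP A) = Nat.land (Nat.xor t m) (cP A) := by
  apply Nat.eq_of_testBit_eq
  intro a
  rw [land_tb, land_tb, xor_tb, xor_tb]
  rcases hb : (cP A).testBit a with _ | _
  · simp
  · obtain ⟨h1, h2⟩ := cP_true hA hb
    have h3 : (t ^^^ s).testBit a = false := by
      by_contra hc
      rw [Bool.not_eq_false] at hc
      rw [h a hc] at h2
      exact Bool.noConfusion h2
    rw [Nat.testBit_xor] at h3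
    revert h3
    cases t.testBit a <;> cases s.testBit a <;> simp

theorem sub_self (t A : ℕ) : sub (t ^^^ t) A := by
  intro a ha
  rw [Nat.xor_self, Nat.zero_testBit] at ha
  exact Bool.noConfusion ha

theorem tpos_lt {s : ℕ} (hs : s < 4096) : tpos s < 2048 := by
  rcases Nat.lt_or_ge s 2048 with h | h
  · rw [tpos_low h]
    exact h
  · have h1 : s ^^^ 4095 < 2048 := by
      apply Nat.lt_pow_two_of_testBit (n := 11)
      intro i hi
      rw [Nat.testBit_xor]
      by_cases h2 : i < 12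
      · have h3 : i = 11 := by omega
        subst h3
        have h4 : s.testBit 11 = true := by
          rw [Nat.testBit_eq_decide_div_mod_eq, decide_eq_true_iff]
          omega
        rw [h4]
        decide
      · have h4 : s.testBit i = false := Nat.testBit_lt_two_pow (lt_of_lt_of_le hs
          (by simpa using Nat.pow_le_pow_right (n := 2) (by norm_num) (not_lt.mp h2)))
        have h5 : (4095 : ℕ).testBit i = false := Nat.testBit_lt_two_pow (lt_of_lt_of_le
          (by norm_num : (4095 : ℕ) < 4096)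
          (by simpa using Nat.pow_le_pow_right (n := 2) (by norm_num) (not_lt.mp h2)))
        rw [h4, h5]
        rfl
    have h2 : s = (s ^^^ 4095) ^^^ 4095 := by rw [Nat.xor_assoc, Nat.xor_self, Nat.xor_zero]
    rw [h2, tpos_high h1]
    exact h1

theorem lit_T {s : ℕ} (hs : s < 4096) (h : lit χ T (8192 + tpos s)) : T (tpos s) = true := by
  have := tpos_lt hs
  rcases h with ⟨a, _⟩ | ⟨_, a, _⟩ | ⟨_, _, a⟩ | ⟨a, _, _⟩
  · omega
  · omega
  · have e : 8192 + tpos s - 8192 = tpos s := by omega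
    rw [e] at a
    exact a
  · omega

theorem lit_N {s : ℕ} (hs : s < 4096) (h : lit χ T (12288 + tpos s)) : T (tpos s) = false := by
  have := tpos_lt hs
  rcases h with ⟨a, _⟩ | ⟨_, a, _⟩ | ⟨_, a, _⟩ | ⟨_, _, a⟩
  · omega
  · omega
  · omega
  · have e : 12288 + tpos s - 12288 = tpos s := by omega
    rw [e] at a
    exact a


/-! ### The codes -/

theorem tS_lt (c : ℕ) : tS c < 4096 := by
  have hs : Nat.land c 2047 < 2048 := land_lt_two_pow (n := 11) _ (by norm_num)
  have hf : Nat.land (Nat.shiftRight c 21) 1 < 2 := land_lt_two_pow (n := 1) _ (by norm_num)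
  have k2 := range_all (range_all t_check _ hs) _ hf
  rw [Bool.and_eq_true, Nat.blt_eq] at k2
  exact k2.2

/-- the parities of the complement -/
theorem par_check : ((List.range 1024).all fun i =>
    Nat.beq (Nat.xor (Nat.shiftRight (vi i) 12) 1365) (ipM (cP (Nat.land (vi i) 4095))) &&
      Nat.beq (Nat.land (Nat.shiftRight T7 (cP (Nat.land (vi i) 4095))) 1) 1) = true := by
  decide +kernel

/-! ### The positions of `rev` -/

/-- all positions of `rev` -/
def R12 : Nat := rev 4095

theorem rv_check : ((List.range 4096).all fun x =>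
    Nat.beq (Nat.land (rev x) R12) (rev x)) = true := by decide +kernel

theorem r12_check : ((List.range 2112).all fun i => (!(R12.testBit i)) ||
    ((List.range 12).any fun j => Nat.beq i (Nat.sub 2048 (Nat.pow 2 j)))) = true := by
  decide +kernel

theorem R12_lt : R12 < 2 ^ 2112 := by decide +kernel

theorem rv_bit {x i : ℕ} (hx : x < 4096) (h : (rev x).testBit i = true) :
    ∃ j, j < 12 ∧ i = 2048 - 2 ^ j ∧ x.testBit j = true := by
  have h1 := Nat.eq_of_beq_eq_true (range_all rv_check x hx)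
  have h2 : R12.testBit i = true := by
    have : (Nat.land (rev x) R12).testBit i = true := by rw [h1, h]
    change (rev x &&& R12).testBit i = true at this
    rw [Nat.testBit_and, Bool.and_eq_true] at this
    exact this.2
  have hi : i < 2112 := by
    by_contra hc
    have : R12.testBit i = false := Nat.testBit_lt_two_pow (lt_of_lt_of_le R12_lt
      (Nat.pow_le_pow_right (by norm_num) (by omega)))
    rw [this] at h2
    exact Bool.noConfusion h2
  have h3 := range_all r12_check i hi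
  rw [h2] at h3
  have h4 : ((List.range 12).any fun j => Nat.beq i (Nat.sub 2048 (Nat.pow 2 j))) = true := h3
  obtain ⟨j, hj, hj'⟩ := List.any_eq_true.1 h4
  have hj1 : j < 12 := List.mem_range.1 hj
  have hj2 : i = 2048 - 2 ^ j := Nat.eq_of_beq_eq_true hj'
  refine ⟨j, hj1, hj2, ?_⟩
  rw [← rev_bit hx hj1, ← hj2, h]

theorem rv_ge {x i : ℕ} (hx : x < 4096) (hi : 2048 ≤ i) : (rev x).testBit i = false := by
  by_contra hc
  rw [Bool.not_eq_false] at hc
  obtain ⟨j, hj, h, _⟩ := rv_bit hx hc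
  have h1 : 0 < 2 ^ j := Nat.pos_of_ne_zero (by positivity)
  omega

theorem rv_lt {x : ℕ} (hx : x < 4096) : rev x < 2 ^ 4096 := by
  apply Nat.lt_pow_two_of_testBit
  intro i hi
  exact rv_ge hx (by omega)

theorem rcH_bit {J U : ℕ} (hJ : J < 4096) (hU : U < 4096) (i : ℕ) :
    (ccH (rev J) (rev U)).testBit i =
      if i < 4096 then xor ((rev J).testBit i) ((rev U).testBit i)
      else (rev U).testBit (i - 4096) := by
  have e : ccH (rev J) (rev U) = (rev J ^^^ rev U) ||| (rev U <<< 4096) := rfl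
  rw [e, Nat.testBit_or, Nat.testBit_xor, Nat.testBit_shiftLeft]
  by_cases hi : i < 4096
  · have : ¬ (4096 ≤ i) := by omega
    simp [hi, this]
  · have h1 := rv_ge hJ (i := i) (by omega)
    have h2 := rv_ge hU (i := i) (by omega)
    rw [if_neg hi, h1, h2]
    have : 4096 ≤ i := by omega
    simp [this]

theorem rmm_bit {J : ℕ} (hJ : J < 4096) (i : ℕ) : (Nat.mul mm (rev J)).testBit i =
    if i < 4096 then (rev J).testBit i else (rev J).testBit (i - 4096) := by
  have e : Nat.mul mm (rev J) = 2 ^ 4096 * rev J + rev J := by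
    have : mm = 1 + 2 ^ 4096 := rfl
    rw [this]
    change (1 + 2 ^ 4096) * rev J = _
    ring
  rw [e, Nat.testBit_two_pow_mul_add _ (rv_lt hJ)]

/-- The literals are the union of two halves, restricted to the 7-set. -/
theorem rcore_eq {t J : ℕ} (ht : t < 4096) (hJ : J < 4096) :
    Nat.land (Nat.lor (ccH (rev 63) (rev (Nat.land t 63)))
      (ccH (rev 4032) (rev (Nat.shiftLeft (Nat.shiftRight t 6) 6)))) (Nat.mul mm (rev J)) =
    ccH (rev J) (rev (Nat.land t J)) := by
  have hl : Nat.land t 63 < 4096 := land_lt4096 _ ht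
  have hh := hi_lt ht
  have hu : Nat.land t J < 4096 := land_lt4096 _ ht
  apply Nat.eq_of_testBit_eq
  intro i
  rw [land_bit, lor_testBit, rcH_bit (by norm_num) hl, rcH_bit (by norm_num) hh, rcH_bit hJ hu,
    rmm_bit hJ]
  have key : ∀ k, (∃ j, j < 12 ∧ k = 2048 - 2 ^ j) ∨ ∀ x < 4096, (rev x).testBit k = false := by
    intro k
    by_cases h : ∃ j, j < 12 ∧ k = 2048 - 2 ^ j
    · exact Or.inl h
    · right
      intro x hx
      by_contra hc
      rw [Bool.not_eq_false] at hc
      obtain ⟨j, hj, hk, _⟩ := rv_bit hx hc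
      exact h ⟨j, hj, hk⟩
  by_cases hi : i < 4096
  · rw [if_pos hi, if_pos hi, if_pos hi, if_pos hi]
    rcases key i with ⟨j, hj, hk⟩ | h0
    · rw [hk, rev_bit (by norm_num) hj, rev_bit hl hj, rev_bit (by norm_num) hj,
        rev_bit hh hj, rev_bit hJ hj, rev_bit hu hj, lo_bit, hi_bit, land_bit, b63,
        b4032 hj]
      by_cases h6 : j < 6
      · have h6' : ¬ 6 ≤ j := by omega
        cases t.testBit j <;> cases J.testBit j <;> simp [h6, h6']
      · have h6' : 6 ≤ j := by omega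
        cases t.testBit j <;> cases J.testBit j <;> simp [h6, h6']
    · rw [h0 63 (by norm_num), h0 _ hl, h0 4032 (by norm_num), h0 _ hh, h0 _ hJ, h0 _ hu]
      rfl
  · rw [if_neg hi, if_neg hi, if_neg hi, if_neg hi]
    rcases key (i - 4096) with ⟨j, hj, hk⟩ | h0
    · rw [hk, rev_bit hl hj, rev_bit hh hj, rev_bit hJ hj, rev_bit hu hj, lo_bit,
        hi_bit, land_bit]
      by_cases h6 : j < 6
      · have h6' : ¬ 6 ≤ j := by omega
        cases t.testBit j <;> cases J.testBit j <;> simp [h6, h6']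
      · have h6' : 6 ≤ j := by omega
        cases t.testBit j <;> cases J.testBit j <;> simp [h6, h6']
    · rw [h0 _ hl, h0 _ hh, h0 _ hJ, h0 _ hu]
      rfl

theorem KL_eq (t : ℕ) : KL t = ccH (rev 63) (rev (Nat.land t 63)) := by
  unfold KL
  cases Nat.land t (nat_lit 63) with
  | zero => rfl
  | succ n => rfl

theorem KH_eq (t : ℕ) : KH t = ccH (rev 4032) (rev (Nat.shiftLeft (Nat.shiftRight t 6) 6)) := by
  unfold KH
  change (@Nat.rec (fun _ => Nat) kh0 kh1 (Nat.shiftRight t 6) : ℕ) = _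
  cases Nat.shiftRight t 6 with
  | zero => rfl
  | succ n => rfl

/-- the seven literals of a circuit -/
def chK (C t : ℕ) : ℕ := Nat.shiftRight (Nat.shiftLeft (ccH (rev C)
  (rev (Nat.land (Nat.xor t (ipM C)) C))) C) 2048

theorem kn2_eq {t C : ℕ} (ht : t < 4096) (hC : C < 4096) :
    kn2 t C (Nat.mul mm (rev C)) =
      Nat.shiftRight (Nat.shiftLeft (ccH (rev C) (rev (Nat.land t C))) C) 2048 := by
  unfold kn2
  rw [KL_eq, KH_eq, rcore_eq ht hC]

theorem shr_tb (a k i : ℕ) : (Nat.shiftRight a k).testBit i = a.testBit (k + i) :=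
  Nat.testBit_shiftRight a

theorem chK_lt {C t i : ℕ} (hJ : C < 4096) (h : (chK C t).testBit i = true) : i < 8192 := by
  have hu : Nat.land (Nat.xor t (ipM C)) C < 4096 :=
    lt_of_le_of_lt (Nat.and_le_right (n := Nat.xor t (ipM C)) (m := C)) hJ
  unfold chK at h
  rw [shr_tb, shl_tb, Bool.and_eq_true, decide_eq_true_iff] at h
  obtain ⟨h1, h2⟩ := h
  by_contra hc
  rw [rcH_bit hJ hu, if_neg (by omega), rv_ge hu (by omega)] at h2
  exact Bool.noConfusion h2

/-- no complementary literals -/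
theorem chK_nocl {C t i : ℕ} (hJ : C < 4096) (h1 : (chK C t).testBit i = true)
    (h2 : (chK C t).testBit (i + 4096) = true) : False := by
  have hu : Nat.land (Nat.xor t (ipM C)) C < 4096 :=
    lt_of_le_of_lt (Nat.and_le_right (n := Nat.xor t (ipM C)) (m := C)) hJ
  unfold chK at h1 h2
  rw [shr_tb, shl_tb, Bool.and_eq_true, decide_eq_true_iff] at h1 h2
  obtain ⟨h3, h4⟩ := h1
  obtain ⟨h5, h6⟩ := h2
  obtain ⟨k, hk⟩ : ∃ k, k = 2048 + i - C := ⟨_, rfl⟩
  have e : 2048 + (i + 4096) - C = k + 4096 := by omega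
  rw [← hk] at h4
  rw [e] at h6
  rw [rcH_bit hJ hu] at h4 h6
  rw [if_neg (by omega), Nat.add_sub_cancel] at h6
  have hk2 : k < 4096 := by
    by_contra hc
    rw [rv_ge hu (by omega)] at h6
    exact Bool.noConfusion h6
  rw [if_pos hk2, h6] at h4
  obtain ⟨j, hj, hkj, hb2⟩ := rv_bit hu h6
  have : (rev C).testBit k = true := by
    rw [hkj, rev_bit hJ hj]
    rw [land_bit, Bool.and_eq_true] at hb2
    exact hb2.2
  rw [this] at h4
  exact Bool.noConfusion h4

/-- the decoded fields of a code -/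
structure Fld (c y C : ℕ) : Prop where
  lt : C < 4096
  t7 : Nat.land (Nat.shiftRight T7 C) 1 = 1
  cv : CV y = C
  ik : IK y = ipM C
  ds : ds (AV y) = ds (cP C)

theorem cP_cP {A : ℕ} (hA : A < 4096) : cP (cP A) = A := by
  apply Nat.eq_of_testBit_eq
  intro i
  have e : cP (cP A) = 4095 ^^^ (4095 ^^^ A) := rfl
  rw [e, ← Nat.xor_assoc, Nat.xor_self, Nat.zero_xor]

theorem fld {c y : ℕ} : Fld c y (cP (Nat.land (vi (Nat.land (Nat.shiftRight (Nat.succ y) 11) 1023)) 4095)) := by
  have hi' : Nat.land (Nat.shiftRight (Nat.succ y) 11) 1023 < 1024 :=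
    land_lt_two_pow (n := 10) _ (by norm_num)
  have hA' : Nat.land (vi (Nat.land (Nat.shiftRight (Nat.succ y) 11) 1023)) 4095 < 4096 :=
    land_lt_two_pow (n := 12) _ (by norm_num)
  have k1 := range_all par_check _ hi'
  rw [Bool.and_eq_true] at k1
  have hds : AV y = Nat.land (vi (Nat.land (Nat.shiftRight (Nat.succ y) 11) 1023)) 4095 := rfl
  exact ⟨cP_lt hA', Nat.eq_of_beq_eq_true k1.2, rfl, Nat.eq_of_beq_eq_true k1.1, by
    rw [cP_cP hA', hds]⟩

theorem MK_eq {y C : ℕ} (h : CV y = C) : MK y = Nat.mul mm (rev C) := by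
  rw [← h]
  rfl

theorem good_kn (hkc : ∀ A t, t < 4096 → Cl χ T (genKC A t)) (c : ℕ) : Gq χ T (kn c) := by
  rcases hx : Nat.land c (nat_lit 0x1FF800) with _ | y
  · have : kn c = tr := by
      unfold kn
      rw [hx]
      rfl
    rw [this]
    exact good_tr
  · obtain ⟨C, hF⟩ : ∃ C, Fld c y C := ⟨_, fld⟩
    obtain ⟨s, hs⟩ : ∃ s, s = Nat.land c 2047 := ⟨_, rfl⟩
    obtain ⟨f, hf⟩ : ∃ f, f = Nat.land (Nat.shiftRight c 21) 1 := ⟨_, rfl⟩
    have hs' : s < 2048 := hs ▸ land_lt_two_pow (n := 11) _ (by norm_num)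
    have hf' : f < 2 := hf ▸ land_lt_two_pow (n := 1) _ (by norm_num)
    have k2 := range_all (range_all t_check s hs') f hf'
    rw [Bool.and_eq_true, Nat.blt_eq] at k2
    have ht : tS c = Nat.xor s (Nat.mul 4095 f) := by rw [hs, hf]; rfl
    have k5 : tpos (tS c) = s := by
      rw [ht]
      exact Nat.eq_of_beq_eq_true k2.1
    have ht' : tS c < 4096 := tS_lt c
    have hv : Nat.xor (tS c) (ipM C) < 4096 := Nat.xor_lt_two_pow (n := 12) ht' (ipM_lt hF.lt)
    have e1 : kn c = Nat.lor (chK C (tS c)) (Nat.shiftLeft 1 (Nat.add 12288 s)) := by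
      have e : kn c = kn1 c y (@Nat.rec (fun _ => Nat) tr (kn1 c) y) := by
        unfold kn
        rw [hx]
      have g4 : Nat.shiftLeft (Nat.pow 2 12288) s = Nat.shiftLeft 1 (Nat.add 12288 s) := by
        change (2 ^ 12288) <<< s = 1 <<< (12288 + s)
        rw [Nat.shiftLeft_eq, Nat.shiftLeft_eq, ← pow_add, one_mul]
      rw [e]
      change Nat.lor (kn2 (Nat.xor (tS c) (IK y)) (CV y) (MK y))
        (Nat.shiftLeft (Nat.pow 2 12288) (Nat.land c 2047)) = _
      rw [← hs, g4, MK_eq hF.cv, hF.cv, hF.ik, kn2_eq hv hF.lt]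
      rfl
    have e2 : genKC C (tS c) = kn c := by
      have e' : genKC C (tS c) = grd (Nat.land (Nat.shiftRight T7 C) 1)
        (Nat.lor (chK C (tS c)) (Nat.shiftLeft 1 (Nat.add 12288 (tpos (tS c))))) := rfl
      rw [e', hF.t7, k5, e1, grd_one]
    refine ⟨?_, Or.inr ?_⟩
    · rw [← e2]
      exact CL_of_Cl (hkc _ _ ht')
    · rw [e1]
      have hT : ∀ k, (Nat.shiftLeft 1 (Nat.add 12288 s)).testBit k = true → k = 12288 + s :=
        fun k hk => one_shl_testBit hk
      refine cl_zero_of fun j h1 h2 hr => ?_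
      rw [lor_testBit, Bool.or_eq_true] at h1 h2
      rcases h1 with h1 | h1
      · rcases h2 with h2 | h2
        · exact chK_nocl hF.lt h1 h2
        · have := hT _ h2
          have := chK_lt hF.lt h1
          omega
      · have q1 := hT _ h1
        rcases h2 with h2 | h2
        · have := chK_lt hF.lt h2
          omega
        · have := hT _ h2
          omega

/-- **Plain clauses.** -/
theorem good_pn {G : ℕ → ℕ} (hG : Ok χ T G) (hkc : ∀ A t, t < 4096 → Cl χ T (genKC A t)) (c : ℕ) :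
    Gq χ T (pn c) := by
  unfold pn
  cases Nat.beq (Nat.land (Nat.shiftRight c (nat_lit 22)) (nat_lit 1)) (nat_lit 0) with
  | true => exact good_cn hG c
  | false => exact good_kn hkc c

/-- the seven literals of a cocircuit -/
def chC (A t : ℕ) : ℕ := Nat.shiftLeft (ccH (spread (cP A))
  (spread (Nat.land (Nat.xor t (ipM A)) (cP A)))) A

theorem chC_lt {A t i : ℕ} (hA : A < 4096) (h : (chC A t).testBit i = true) :
    i < 12288 := by
  have hJ : cP A < 4096 := cP_lt hA
  have hu : Nat.land (Nat.xor t (ipM A)) (cP A) < 4096 :=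
    lt_of_le_of_lt (Nat.and_le_right (n := Nat.xor t (ipM A)) (m := cP A)) hJ
  unfold chC at h
  rw [shl_tb, Bool.and_eq_true] at h
  by_contra hc
  rw [ccH_ge hJ hu (by omega)] at h
  exact Bool.noConfusion h.2

theorem chC8 : ∀ A < 4096, Nat.land (Nat.shiftRight T5 A) 1 = 1 → ∀ j < 12,
    (cP A).testBit j = true → A + 2 ^ j < 4096 := by
  intro A hA _ j hj hb
  have hb' : A.testBit j = false := by
    rw [cP_bit hj] at hb
    cases h : A.testBit j
    · rfl
    · rw [h] at hb
      exact Bool.noConfusion hb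
  have := Pool.Agent.H28.Z12.or_pow hA hj hb'
  have h2 : A ||| 2 ^ j < 4096 := Pool.Agent.H28.Z12.or_lt hA (pow_lt' hj)
  omega

theorem chC_lt8 {A t i : ℕ} (hA : A < 4096) (h5 : Nat.land (Nat.shiftRight T5 A) 1 = 1)
    (h : (chC A t).testBit i = true) : i < 8192 := by
  have hJ : cP A < 4096 := cP_lt hA
  have hu : Nat.land (Nat.xor t (ipM A)) (cP A) < 4096 :=
    lt_of_le_of_lt (Nat.and_le_right (n := Nat.xor t (ipM A)) (m := cP A)) hJ
  unfold chC at h
  rw [shl_tb, Bool.and_eq_true, decide_eq_true_iff] at h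
  obtain ⟨h1, h2⟩ := h
  have key : ∀ x, x < 4096 → (∀ a, x.testBit a = true → (cP A).testBit a = true) → ∀ k,
      (spread x).testBit k = true → A + k < 4096 := by
    intro x hx hs k hk
    obtain ⟨j, hj, rfl, hb⟩ := sp_bit hx hk
    exact chC8 A hA h5 j hj (hs j hb)
  have hsub : ∀ a, (Nat.land (Nat.xor t (ipM A)) (cP A)).testBit a = true →
      (cP A).testBit a = true := by
    intro a ha
    rw [land_tb, Bool.and_eq_true] at ha
    exact ha.2
  rw [ccH_bit hJ hu] at h2
  by_cases h3 : i - A < 4096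
  · rw [if_pos h3] at h2
    rcases hc : (spread (cP A)).testBit (i - A) with _ | _
    · rw [hc, Bool.false_xor] at h2
      have := key _ hu hsub _ h2
      omega
    · have := key _ hJ (fun _ h => h) _ hc
      omega
  · rw [if_neg h3] at h2
    have := key _ hu hsub _ h2
    omega

/-- a cocircuit clause: one of the seven literals or the cell -/
theorem cc_or (hcc : ∀ A t, t < 4096 → Cl χ T (genCC A t)) {A t s : ℕ} (hA : A < 4096)
    (h5 : Nat.land (Nat.shiftRight T5 A) 1 = 1) (hs : s < 4096) (hts : sub (t ^^^ s) A) :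
    (∃ j, j < 8192 ∧ (chC A t).testBit j = true ∧ lit χ T j) ∨ T (tpos s) = true := by
  obtain ⟨i, h1, h2⟩ := hcc A s hs
  have e : genCC A s = Nat.lor (chC A t) (Nat.shiftLeft (nat_lit 1) (Nat.add 8192 (tpos s))) := by
    have e1 : genCC A s = grd (Nat.land (Nat.shiftRight T5 A) 1)
        (Nat.lor (Nat.shiftLeft (ccH (spread (cP A))
          (spread (Nat.land (Nat.xor s (ipM A)) (cP A)))) A)
          (Nat.shiftLeft 1 (Nat.add 8192 (tpos s)))) := rfl
    rw [e1, h5, grd_one, land_eq hA hts]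
    rfl
  rw [e, lor_tb, Bool.or_eq_true] at h1
  rcases h1 with h1 | h1
  · exact Or.inl ⟨i, chC_lt8 hA h5 h1, h1, h2⟩
  · have hi : i = 8192 + tpos s := one_shl_testBit h1
    rw [hi] at h2
    exact Or.inr (lit_T hs h2)

/-- a circuit clause: one of the seven literals or not the cell -/
theorem kc_or (hkc : ∀ A t, t < 4096 → Cl χ T (genKC A t)) {A C t s : ℕ} (hA : A < 4096)
    (hC : C = cP A) (h7 : Nat.land (Nat.shiftRight T7 C) 1 = 1) (hs : s < 4096)
    (hts : sub (t ^^^ s) A) :
    (∃ j, j < 8192 ∧ (chK C t).testBit j = true ∧ lit χ T j) ∨ T (tpos s) = false := by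
  obtain ⟨i, h1, h2⟩ := hkc C s hs
  have hl : Nat.land (Nat.xor s (ipM C)) C = Nat.land (Nat.xor t (ipM C)) C := by
    rw [hC]
    exact land_eq hA hts
  have e : genKC C s =
      Nat.lor (chK C t) (Nat.shiftLeft (nat_lit 1) (Nat.add 12288 (tpos s))) := by
    have e1 : genKC C s = grd (Nat.land (Nat.shiftRight T7 C) 1)
        (Nat.lor (Nat.shiftRight (Nat.shiftLeft (ccH (rev C)
          (rev (Nat.land (Nat.xor s (ipM C)) C))) C) 2048)
          (Nat.shiftLeft 1 (Nat.add 12288 (tpos s)))) := rfl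
    rw [e1, h7, grd_one, hl]
    rfl
  rw [e, lor_tb, Bool.or_eq_true] at h1
  rcases h1 with h1 | h1
  · exact Or.inl ⟨i, chK_lt (hC ▸ cP_lt hA) h1, h1, h2⟩
  · have hi : i = 12288 + tpos s := one_shl_testBit h1
    rw [hi] at h2
    exact Or.inr (lit_N hs h2)

/-- the literals of cells in the mask `V` imply a literal below `8192` in `V` -/
def VG (χ T : ℕ → Bool) (V : ℕ) : Prop := ∀ i, 8192 ≤ i → i < 16384 → V.testBit i = true →
  lit χ T i → ∃ j, j < 8192 ∧ V.testBit j = true ∧ lit χ T j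

theorem VG_tr : VG χ T tr := by
  intro i _ h3 h1 _
  exfalso
  have e : tr = 2 ^ 28672 := rfl
  rw [e, Nat.testBit_two_pow, decide_eq_true_iff] at h1
  omega

theorem vg_C (hcc : ∀ A t, t < 4096 → Cl χ T (genCC A t)) {A t : ℕ} (hA : A < 4096)
    (h5 : Nat.land (Nat.shiftRight T5 A) 1 = 1) (ht : t < 4096) :
    VG χ T (Nat.lor (chC A t) (Nat.shiftLeft (nF A t) 12288)) := by
  intro i h2 h3 h1 h4
  rw [lor_tb, Bool.or_eq_true] at h1
  rcases h1 with h1 | h1
  · have := chC_lt8 hA h5 h1
    omega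
  · rw [shl_tb, Bool.and_eq_true] at h1
    obtain ⟨h5', h6⟩ := h1
    have h5' : 12288 ≤ i := of_decide_eq_true h5'
    obtain ⟨h7, s, h8, h9, h10⟩ := nF_bit ht h6
    rcases cc_or hcc hA h5 h8 h10 with ⟨j, j1, j2, j3⟩ | h
    · exact ⟨j, j1, by rw [lor_tb, j2, Bool.true_or], j3⟩
    · exfalso
      have hi : i = 12288 + tpos s := by
        rw [h9]
        have : 12288 ≤ i := h5'
        omega
      rw [hi] at h4
      rw [lit_N h8 h4] at h
      exact Bool.noConfusion h

theorem vg_K (hkc : ∀ A t, t < 4096 → Cl χ T (genKC A t)) {A C t : ℕ} (hA : A < 4096)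
    (hC : C = cP A) (h7 : Nat.land (Nat.shiftRight T7 C) 1 = 1) (ht : t < 4096) :
    VG χ T (Nat.lor (chK C t) (Nat.shiftLeft (nF A t) 8192)) := by
  intro i h2 h3 h1 h4
  rw [lor_tb, Bool.or_eq_true] at h1
  rcases h1 with h1 | h1
  · have := chK_lt (hC ▸ cP_lt hA) h1
    omega
  · rw [shl_tb, Bool.and_eq_true] at h1
    obtain ⟨h5', h6⟩ := h1
    have h5' := of_decide_eq_true h5'
    obtain ⟨h7', s, h8, h9, h10⟩ := nF_bit ht h6
    rcases kc_or hkc hA hC h7 h8 h10 with ⟨j, j1, j2, j3⟩ | h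
    · exact ⟨j, j1, by rw [lor_tb, j2, Bool.true_or], j3⟩
    · exfalso
      have hi : i = 8192 + tpos s := by
        rw [h9]
        omega
      rw [hi] at h4
      rw [lit_T h8 h4] at h
      exact Bool.noConfusion h

theorem vK_VG (hkc : ∀ A t, t < 4096 → Cl χ T (genKC A t)) (c : ℕ) : VG χ T (vK c) := by
  rcases hx : Nat.land c (nat_lit 0x1FF800) with _ | y
  · have : vK c = tr := by
      unfold vK
      rw [hx]
      rfl
    rw [this]
    exact VG_tr
  · obtain ⟨C, hF⟩ : ∃ C, Fld c y C := ⟨_, fld⟩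
    have hv : Nat.xor (tS c) (ipM C) < 4096 := Nat.xor_lt_two_pow (n := 12) (tS_lt c) (ipM_lt hF.lt)
    have e1 : vK c = Nat.lor (chK C (tS c)) (Nat.shiftLeft (nF (cP C) (tS c)) 8192) := by
      have e : vK c = vk1 c y (@Nat.rec (fun _ => Nat) tr (vk1 c) y) := by
        unfold vK
        rw [hx]
      rw [e]
      change Nat.lor (kn2 (Nat.xor (tS c) (IK y)) (CV y) (MK y))
        (Nat.shiftLeft (nF2 (ds (AV y)) (tS c) (CV y)) 8192) = _
      rw [MK_eq hF.cv, hF.ds, hF.cv, hF.ik, kn2_eq hv hF.lt]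
      have e3 : nF (cP C) (tS c) = nF2 (ds (cP C)) (tS c) C := by
        unfold nF
        rw [cP_cP hF.lt]
      rw [e3]
      rfl
    rw [e1]
    exact vg_K hkc (cP_lt hF.lt) (cP_cP hF.lt).symm hF.t7 (tS_lt c)

/-- **Vertex masks.** -/
theorem vn_VG (hcc : ∀ A t, t < 4096 → Cl χ T (genCC A t))
    (hkc : ∀ A t, t < 4096 → Cl χ T (genKC A t)) (c : ℕ) : VG χ T (vn c) := by
  unfold vn
  cases Nat.beq (Nat.land (Nat.shiftRight c (nat_lit 22)) (nat_lit 1)) (nat_lit 0) with
  | false => exact vK_VG hkc c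
  | true =>
    change VG χ T (vC c)
    rcases hx : Nat.land c (nat_lit 0x1FF800) with _ | y
    · have : vC c = tr := by
        unfold vC
        rw [hx]
        rfl
      rw [this]
      exact VG_tr
    · obtain ⟨i, hi⟩ : ∃ i, i = Nat.land (Nat.shiftRight (Nat.succ y) 11) 1023 := ⟨_, rfl⟩
      obtain ⟨A, hA⟩ : ∃ A, A = Nat.land (vi i) 4095 := ⟨_, rfl⟩
      have hi' : i < 1024 := hi ▸ land_lt_two_pow (n := 10) _ (by norm_num)
      have hA' : A < 4096 := hA ▸ land_lt_two_pow (n := 12) _ (by norm_num)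
      have k1 := range_all v_check i hi'
      rw [Bool.and_eq_true] at k1
      have k3 := Nat.eq_of_beq_eq_true k1.1
      have k4 := Nat.eq_of_beq_eq_true k1.2
      rw [← hA] at k3 k4
      have hJ : Nat.xor 4095 A < 4096 := Nat.xor_lt_two_pow (n := 12) (by norm_num) hA'
      have hv : Nat.xor (tS c) (ipM A) < 4096 :=
        Nat.xor_lt_two_pow (n := 12) (tS_lt c) (ipM_lt hA')
      have e1 : vC c = Nat.lor (chC A (tS c)) (Nat.shiftLeft (nF A (tS c)) 12288) := by
        have e : vC c = vn1 c y (@Nat.rec (fun _ => Nat) tr (vn1 c) y) := by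
          unfold vC
          rw [hx]
        have g1 : AV y = A := by
          rw [hA, hi]
          rfl
        have g2 : IV y = ipM A := by
          have : IV y = Nat.shiftRight (vi i) 12 := by
            rw [hi]
            rfl
          rw [this, k4]
        have g3 : MV y = Nat.mul mm (spread (Nat.xor 4095 A)) := by
          rw [← g1]
          rfl
        have g5 : DV y = ds A := by
          rw [← g1]
          rfl
        have g6 : CV y = cP A := by
          rw [← g1]
          rfl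
        rw [e]
        change Nat.lor (cn2 (Nat.xor (tS c) (IV y)) (AV y) (MV y))
          (Nat.shiftLeft (nF2 (DV y) (tS c) (CV y)) 12288) = _
        rw [g2, g1, g3, g5, g6]
        unfold cn2
        rw [SL_eq, SH_eq, core_eq hv hJ]
        rfl
      rw [e1]
      exact vg_C hcc hA' k3 (tS_lt c)

end Pool.Agent.H17.Z12.P
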