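import Mathlib
import Pool.Agent.H28.Z12.OrthDefs
import Pool.Agent.H17.Z12.GenPS
import Pool.Agent.H17.Z12.GenO

/-!
Soundness of the orthogonality codes (MP_1e71f9_co).
-/

set_option autoImplicit false
set_option maxRecDepth 10000

namespace Pool.Agent.H17.Z12.P

open Pool.Agent.H17.Z12
open Pool.Agent.H13.Z12 (lit Cl Fa)
open Pool.Agent.H13.Z12.B3 (tr CL CL_of_Cl range_all lor_testBit grd_one)
open Pool.Agent.H13.Z12.B6 (Gq fx good_tr good_fx)
open Pool.Agent.H28.Z12 (ipM T5 T7 spread rev ccH genO genOH grd spread_bit rev_bit ipM_lt)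

variable {χ T : ℕ → Bool}

theorem sp_land {a b : ℕ} (ha : a < 4096) (hb : b < 4096) (k : ℕ) :
    (spread (Nat.land a b)).testBit k = ((spread a).testBit k && (spread b).testBit k) := by
  have hab : Nat.land a b < 4096 := land_lt4096 _ ha
  by_cases h : ∃ j, j < 12 ∧ k = 2 ^ j
  · obtain ⟨j, hj, rfl⟩ := h
    rw [spread_bit hab hj, spread_bit ha hj, spread_bit hb hj, land_bit]
  · have h0 : ∀ x < 4096, (spread x).testBit k = false := by
      intro x hx
      by_contra hc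
      rw [Bool.not_eq_false] at hc
      obtain ⟨j, hj, hk, _⟩ := sp_bit hx hc
      exact h ⟨j, hj, hk⟩
    rw [h0 _ hab, h0 _ ha, h0 _ hb]
    rfl

theorem rv_land {a b : ℕ} (ha : a < 4096) (hb : b < 4096) (k : ℕ) :
    (rev (Nat.land a b)).testBit k = ((rev a).testBit k && (rev b).testBit k) := by
  have hab : Nat.land a b < 4096 := land_lt4096 _ ha
  by_cases h : ∃ j, j < 12 ∧ k = 2048 - 2 ^ j
  · obtain ⟨j, hj, rfl⟩ := h
    rw [rev_bit hab hj, rev_bit ha hj, rev_bit hb hj, land_bit]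
  · have h0 : ∀ x < 4096, (rev x).testBit k = false := by
      intro x hx
      by_contra hc
      rw [Bool.not_eq_false] at hc
      obtain ⟨j, hj, hk, _⟩ := rv_bit hx hc
      exact h ⟨j, hj, hk⟩
    rw [h0 _ hab, h0 _ ha, h0 _ hb]
    rfl

theorem mm_land {a b : ℕ} (ha : a < 4096) (hb : b < 4096) :
    Nat.land (Nat.mul mm (spread a)) (Nat.mul mm (spread b)) = Nat.mul mm (spread (Nat.land a b)) := by
  have hab : Nat.land a b < 4096 := land_lt4096 _ ha
  apply Nat.eq_of_testBit_eq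
  intro i
  rw [land_bit, mm_bit ha, mm_bit hb, mm_bit hab]
  by_cases hi : i < 4096
  · rw [if_pos hi, if_pos hi, if_pos hi, sp_land ha hb]
  · rw [if_neg hi, if_neg hi, if_neg hi, sp_land ha hb]

theorem rmm_land {a b : ℕ} (ha : a < 4096) (hb : b < 4096) :
    Nat.land (Nat.mul mm (rev a)) (Nat.mul mm (rev b)) = Nat.mul mm (rev (Nat.land a b)) := by
  have hab : Nat.land a b < 4096 := land_lt4096 _ ha
  apply Nat.eq_of_testBit_eq
  intro i
  rw [land_bit, rmm_bit ha, rmm_bit hb, rmm_bit hab]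
  by_cases hi : i < 4096
  · rw [if_pos hi, if_pos hi, if_pos hi, rv_land ha hb]
  · rw [if_neg hi, if_neg hi, if_neg hi, rv_land ha hb]

theorem land_assoc' (a b c : ℕ) : Nat.land (Nat.land a b) c = Nat.land a (Nat.land b c) :=
  Nat.and_assoc a b c

theorem land_comm' (a b : ℕ) : Nat.land a b = Nat.land b a := Nat.and_comm a b

theorem tO_lt (c : ℕ) : tO c < 4096 :=
  Nat.or_lt_two_pow (n := 12) (land_lt_two_pow _ (by norm_num)) (land_lt_two_pow _ (by norm_num))

/-- the fields of the 5-set -/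
theorem fldA (z : ℕ) : AV z < 4096 ∧ Nat.land (Nat.shiftRight T5 (AV z)) 1 = 1 ∧ IV z = ipM (AV z) := by
  have hi : Nat.land (Nat.shiftRight (Nat.succ z) 11) 1023 < 1024 :=
    land_lt_two_pow (n := 10) _ (by norm_num)
  have k1 := range_all v_check _ hi
  rw [Bool.and_eq_true] at k1
  exact ⟨land_lt_two_pow (n := 12) _ (by norm_num), Nat.eq_of_beq_eq_true k1.1,
    Nat.eq_of_beq_eq_true k1.2⟩

theorem oa_eq {t y z : ℕ} (ht : t < 4096) (hC : CV y < 4096) (hZ : AV z < 4096) :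
    oa t y z = Nat.shiftLeft (ccH (spread (Nat.land (CV y) (CV z)))
      (spread (Nat.land t (Nat.land (CV y) (CV z))))) (AV z) := by
  have h1 : MV z = Nat.mul mm (spread (CV z)) := rfl
  have h2 : MV y = Nat.mul mm (spread (CV y)) := rfl
  have hz : CV z < 4096 := cP_lt hZ
  unfold oa
  rw [land_assoc', h1, h2, mm_land hz hC, land_comm' (CV z), SL_eq, SH_eq,
    core_eq ht (land_lt4096 _ hC)]

theorem ob_eq {t y z : ℕ} (ht : t < 4096) (hC : CV y < 4096) (hZ : AV z < 4096) :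
    ob t y z = Nat.shiftRight (Nat.shiftLeft (ccH (rev (Nat.land (CV y) (CV z)))
      (rev (Nat.land t (Nat.land (CV y) (CV z))))) (CV y)) 2048 := by
  have h1 : MK z = Nat.mul mm (rev (CV z)) := rfl
  have h2 : MK y = Nat.mul mm (rev (CV y)) := rfl
  have hz : CV z < 4096 := cP_lt hZ
  unfold ob
  rw [land_assoc', h1, h2, rmm_land hz hC, land_comm' (CV z), KL_eq, KH_eq,
    rcore_eq ht (land_lt4096 _ hC)]

theorem oe_eq (t J : ℕ) : ∃ e, e < 2 ∧ oe t J = Nat.mul 4095 e := by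
  unfold oe
  cases Nat.beq (Nat.land t (Nat.xor (nat_lit 4095) J)) (nat_lit 0) with
  | true => exact ⟨0, by norm_num, rfl⟩
  | false => exact ⟨1, by norm_num, rfl⟩

theorem mul4095_lt {e : ℕ} (he : e < 2) : Nat.mul 4095 e < 4096 := by
  interval_cases e
  · decide
  · decide

/-- **Orthogonality clauses.** -/
theorem good_on (hO : ∀ C Z t e, t < 4096 → e < 2 → Cl χ T (genO C Z t e)) (c : ℕ) :
    Gq χ T (on c) := by
  rcases hx : Nat.land c (nat_lit 0x1FF800) with _ | y
  · have : on c = tr := by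
      unfold on
      rw [hx]
      rfl
    rw [this]
    exact good_tr
  have e0 : on c = on1 c y (@Nat.rec (fun _ => Nat) tr (on1 c) y) := by
    unfold on
    rw [hx]
  rcases hz : Nat.land (Nat.shiftRight c (nat_lit 10)) (nat_lit 0x1FF800) with _ | z
  · have : on c = tr := by
      rw [e0]
      unfold on1
      rw [hz]
      rfl
    rw [this]
    exact good_tr
  have e1 : on c = on3 (tO c) y z := by
    rw [e0]
    unfold on1
    rw [hz]
    rfl
  rw [e1]
  obtain ⟨C, hF⟩ : ∃ C, Fld c y C := ⟨_, fld⟩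
  obtain ⟨hZ, hZ5, hIV⟩ := fldA z
  have hC : CV y < 4096 := by
    rw [hF.cv]
    exact hF.lt
  have ht := tO_lt c
  obtain ⟨e, he, hoe⟩ := oe_eq (tO c) (Nat.land (CV y) (CV z))
  have hv : Nat.xor (tO c) (IV z) < 4096 := by
    rw [hIV]
    exact Nat.xor_lt_two_pow (n := 12) ht (ipM_lt hZ)
  have hw : Nat.xor (Nat.xor (tO c) (Nat.mul 4095 e)) (IK y) < 4096 := by
    rw [hF.ik]
    exact Nat.xor_lt_two_pow (n := 12)
      (Nat.xor_lt_two_pow (n := 12) ht (mul4095_lt he)) (ipM_lt hF.lt)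
  unfold on3
  apply good_fx
  rw [hoe, oa_eq hv hC hZ, ob_eq hw hC hZ, hIV, hF.ik, hF.cv]
  have hg := hO C (AV z) (tO c) e ht he
  have e2 : genO C (AV z) (tO c) e = Nat.lor (Nat.shiftLeft (ccH (spread (Nat.land C (CV z)))
      (spread (Nat.land (Nat.xor (tO c) (ipM (AV z))) (Nat.land C (CV z))))) (AV z))
      (Nat.shiftRight (Nat.shiftLeft (ccH (rev (Nat.land C (CV z)))
        (rev (Nat.land (Nat.xor (Nat.xor (tO c) (Nat.mul 4095 e)) (ipM C)) (Nat.land C (CV z))))) C)
        2048) := by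
    have e3 : genO C (AV z) (tO c) e = grd (Nat.land (Nat.land (Nat.shiftRight T7 C) 1)
      (Nat.land (Nat.shiftRight T5 (AV z)) 1)) (genOH C (AV z) (tO c) e (Nat.land C (CV z))) := rfl
    rw [e3, hF.t7, hZ5]
    exact grd_one _
  rw [e2] at hg
  exact CL_of_Cl hg

end Pool.Agent.H17.Z12.P
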