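import Pool.Agent.H13.Z12.Defs7

/-!
Kernel checker for unit propagation proofs, eighth version (MP_1e71f9_co).

As the seventh version, but the hints of a derivation are the digits of a number in base `N`, the digits
from `NV + 1` on mark inline hints and push their low bits back, the digit `0` is the end, a derivation can
be a hint of another derivation, the outputs of a pair are given by positions in its clauses, the base
clauses are in tables with buckets, and the levels of the computed entries form a binary tree.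
-/

set_option autoImplicit false
set_option maxRecDepth 10000

namespace Pool.Agent.H17.Z12.B8

open Pool.Agent.H13.Z12.B3 (tr lch eM sw)
open Pool.Agent.H13.Z12.B6 (cl mk nz lend tI)
open Pool.Agent.H13.Z12.B7 (stA stV stP il pV pP yp rp pend hf thr yb rc tO tW)
open Pool.Agent.H17.Z12 (gn)
open Pool.Agent.H17.Z12.P (pn vn)

noncomputable section

/-! Derivations. `Sb` is the type of a derivation inside a derivation, `J Sb ih r S p` the step with the
number `p`. -/

/-- end of a derivation inside a derivation: the result `B` is used for a step with `S` -/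
def kk (ih : Nat → Nat → Nat) (S r B : Nat) : Nat := stA ih r (Nat.lor S B)

/-- inline hint: bit 1: derivation `Sb`; bit 0: base clause or vertex mask -/
def is (Sb : (Nat → Nat → Nat) → Nat → Nat → Nat) (ih : Nat → Nat → Nat) (r S : Nat) : Nat :=
  @Bool.rec (fun _ => Nat) (il ih (Nat.shiftRight r (nat_lit 1)) S) (Sb ih (Nat.shiftRight r (nat_lit 1)) S)
    (Nat.beq (Nat.land r (nat_lit 1)) (nat_lit 1))

/-- one hint: a digit in base `N`, `0` is the end -/
def r1 (N : Nat) (J : ((Nat → Nat → Nat) → Nat → Nat → Nat) → (Nat → Nat → Nat) → Nat → Nat → Nat → Nat)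
    (Sb : (Nat → Nat → Nat) → Nat → Nat → Nat) (_ : Nat) (ih : Nat → Nat → Nat) (r S : Nat) : Nat :=
  @Nat.rec (fun _ => Nat) S (fun p _ => J Sb ih (Nat.div r N) S p) (Nat.mod r N)

/-- a derivation inside a derivation: number of hints (5 bits), hints -/
def sb1 (N : Nat) (J : ((Nat → Nat → Nat) → Nat → Nat → Nat) → (Nat → Nat → Nat) → Nat → Nat → Nat → Nat) (_ : Nat)
    (Sb : (Nat → Nat → Nat) → Nat → Nat → Nat) (ih : Nat → Nat → Nat) (r S : Nat) : Nat :=
  @Nat.rec (fun _ => Nat → Nat → Nat) (kk ih S) (r1 N J Sb) (Nat.land r (nat_lit 31)) (Nat.shiftRight r (nat_lit 5))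
    (nat_lit 0)

def s0 (_ : Nat → Nat → Nat) (_ _ : Nat) : Nat := tr

/-- derivations of depth `k` -/
def sb (N : Nat) (J : ((Nat → Nat → Nat) → Nat → Nat → Nat) → (Nat → Nat → Nat) → Nat → Nat → Nat → Nat) (k : Nat) :
    (Nat → Nat → Nat) → Nat → Nat → Nat :=
  @Nat.rec (fun _ => (Nat → Nat → Nat) → Nat → Nat → Nat) s0 (sb1 N J) k

/-- record -/
def rn (N : Nat) (J : ((Nat → Nat → Nat) → Nat → Nat → Nat) → (Nat → Nat → Nat) → Nat → Nat → Nat → Nat) (r S : Nat) :
    Nat :=
  @Nat.rec (fun _ => Nat → Nat → Nat) lend (r1 N J (sb N J (nat_lit 14))) (nat_lit 1023) r S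

/-- the entry is a pair or a vertex mask -/
def sp (NX : Nat) (yb : Nat → Bool) (p : Nat) : Bool := @Bool.rec (fun _ => Bool) (yb p) true (Nat.ble NX p)

/-- vertex masks and inline hints -/
def jw (NV k : Nat) (V : Nat → Nat) (Sb : (Nat → Nat → Nat) → Nat → Nat → Nat) (ih : Nat → Nat → Nat) (r S p : Nat) : Nat :=
  @Bool.rec (fun _ => Nat) (stV ih r S (V p)) (is Sb ih (Nat.add (Nat.shiftLeft r k) (Nat.sub p NV)) S) (Nat.ble NV p)

/-- pairs -/
def jv (NX : Nat) (E : Nat → Nat) (J : ((Nat → Nat → Nat) → Nat → Nat → Nat) → (Nat → Nat → Nat) → Nat → Nat → Nat → Nat)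
    (Sb : (Nat → Nat → Nat) → Nat → Nat → Nat) (ih : Nat → Nat → Nat) (r S p : Nat) : Nat :=
  @Bool.rec (fun _ => Nat) (stP ih r S (yp (E p)) (rp (E p))) (J Sb ih r S p) (Nat.ble NX p)

/-- computed clauses -/
def je (s : Nat → Bool) (E : Nat → Nat)
    (J : ((Nat → Nat → Nat) → Nat → Nat → Nat) → (Nat → Nat → Nat) → Nat → Nat → Nat → Nat)
    (Sb : (Nat → Nat → Nat) → Nat → Nat → Nat) (ih : Nat → Nat → Nat) (r S p : Nat) : Nat :=
  @Bool.rec (fun _ => Nat) (stA ih r (Nat.lor S (E p))) (J Sb ih r S p) (s p)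

/-- base clauses -/
def jb (NB : Nat) (B : Nat → Nat)
    (J : ((Nat → Nat → Nat) → Nat → Nat → Nat) → (Nat → Nat → Nat) → Nat → Nat → Nat → Nat)
    (Sb : (Nat → Nat → Nat) → Nat → Nat → Nat) (ih : Nat → Nat → Nat) (r S p : Nat) : Nat :=
  @Bool.rec (fun _ => Nat) (stA ih r (Nat.lor S (B p))) (J Sb ih r S p) (Nat.ble NB p)

/-- all steps of a derivation -/
def jj (NB NX NV k : Nat) (B E V : Nat → Nat) (yb : Nat → Bool) :
    ((Nat → Nat → Nat) → Nat → Nat → Nat) → (Nat → Nat → Nat) → Nat → Nat → Nat → Nat :=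
  jb NB B (je (sp NX yb) E (jv NX E (jw NV k V)))

/-! Pairs: `S` and the outputs `Y`. -/

/-- resolution, `T` is the union -/
def pR (ih : Nat → Nat → Nat → Nat) (r S Y T x : Nat) : Nat :=
  @Bool.rec (fun _ => Nat) tr (ih r (Nat.xor T (Nat.mul x Pool.Agent.H13.Z12.B7.mm)) (Nat.lor Y (Nat.land S (Nat.mul x Pool.Agent.H13.Z12.B7.mm))))
    (Nat.beq (Nat.land x (Nat.sub x (nat_lit 1))) (nat_lit 0))

/-- negations of literals -/
def ng (b : Nat) : Nat :=
  Nat.lor (Nat.shiftLeft (Nat.land b eM) (nat_lit 4096)) (Nat.land (Nat.shiftRight b (nat_lit 4096)) eM)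

/-- `x` without the lowest `k` bits -/
def dl (x k : Nat) : Nat := @Nat.rec (fun _ => Nat) x (fun _ y => Nat.land y (Nat.sub y (nat_lit 1))) k

/-- lowest bit -/
def lb (x : Nat) : Nat := Nat.xor x (Nat.land x (Nat.sub x (nat_lit 1)))

def pO2 (ih : Nat → Nat → Nat → Nat) (r S Y T : Nat) : Nat :=
  @Bool.rec (fun _ => Nat) tr (pR ih r S Y T (Nat.land (Nat.land T (Nat.shiftRight T (nat_lit 4096))) eM))
    (Nat.beq (cl S) (nat_lit 0))

def pO1 (ih : Nat → Nat → Nat → Nat) (r S Y T y : Nat) : Nat := pO2 ih r (Nat.lor S y) (Nat.lor Y y) (Nat.lor T y)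

/-- new output: the negation of the literal `k` of the new literals of the clause -/
def pO3 (ih : Nat → Nat → Nat → Nat) (r S Y T k : Nat) : Nat := pO1 ih r S Y T (ng (lb (dl (Nat.xor T S) k)))

/-- `k` has 5 bits, or `31` and 9 bits -/
def pO (ih : Nat → Nat → Nat → Nat) (r S Y T : Nat) : Nat :=
  @Bool.rec (fun _ => Nat) (pO3 ih (Nat.shiftRight r (nat_lit 5)) S Y T (Nat.land r (nat_lit 31)))
    (pO3 ih (Nat.shiftRight r (nat_lit 14)) S Y T (Nat.land (Nat.shiftRight r (nat_lit 5)) (nat_lit 511)))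
    (Nat.beq (Nat.land r (nat_lit 31)) (nat_lit 31))

def pC (ih : Nat → Nat → Nat → Nat) (r S Y T x : Nat) : Nat :=
  @Bool.rec (fun _ => Nat) (pR ih r S Y T x) (pO ih r S Y T) (Nat.beq x (nat_lit 0))

def pA (ih : Nat → Nat → Nat → Nat) (r S Y T : Nat) : Nat :=
  pC ih r S Y T (Nat.land (Nat.land T (Nat.shiftRight T (nat_lit 4096))) eM)

/-- inline hint, circuit or cocircuit: vertex bit, code -/
def plC (ih : Nat → Nat → Nat → Nat) (r S Y : Nat) : Nat :=
  @Bool.rec (fun _ => Nat)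
    (pA ih (Nat.shiftRight r (nat_lit 24)) S Y (Nat.lor S (pn (Nat.land (Nat.shiftRight r (nat_lit 1)) (nat_lit 8388607)))))
    (pV ih (Nat.shiftRight r (nat_lit 24)) S Y (vn (Nat.land (Nat.shiftRight r (nat_lit 1)) (nat_lit 8388607))))
    (Nat.beq (Nat.land r (nat_lit 1)) (nat_lit 1))

/-- inline hint: type bit, code -/
def pl (ih : Nat → Nat → Nat → Nat) (r S Y : Nat) : Nat :=
  @Bool.rec (fun _ => Nat)
    (pA ih (Nat.shiftRight r (nat_lit 21)) S Y (Nat.lor S (gn (Nat.land (Nat.shiftRight r (nat_lit 1)) (nat_lit 1048575)))))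
    (plC ih (Nat.shiftRight r (nat_lit 1)) S Y) (Nat.beq (Nat.land r (nat_lit 1)) (nat_lit 1))

/-- one hint: a digit in base `N`, `0` is the end -/
def p1 (N : Nat) (J : (Nat → Nat → Nat → Nat) → Nat → Nat → Nat → Nat → Nat) (_ : Nat)
    (ih : Nat → Nat → Nat → Nat) (r S Y : Nat) : Nat :=
  @Nat.rec (fun _ => Nat) (pend r S Y) (fun p _ => J ih (Nat.div r N) S Y p) (Nat.mod r N)

/-- record -/
def qn (N : Nat) (J : (Nat → Nat → Nat → Nat) → Nat → Nat → Nat → Nat → Nat) (r : Nat) : Nat :=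
  @Nat.rec (fun _ => Nat → Nat → Nat → Nat) pend (p1 N J) (nat_lit 1023) r (nat_lit 0) (nat_lit 0)

def pw (NV k : Nat) (V : Nat → Nat) (ih : Nat → Nat → Nat → Nat) (r S Y p : Nat) : Nat :=
  @Bool.rec (fun _ => Nat) (pV ih r S Y (V p)) (pl ih (Nat.add (Nat.shiftLeft r k) (Nat.sub p NV)) S Y) (Nat.ble NV p)

def pv (NX : Nat) (E : Nat → Nat) (J : (Nat → Nat → Nat → Nat) → Nat → Nat → Nat → Nat → Nat)
    (ih : Nat → Nat → Nat → Nat) (r S Y p : Nat) : Nat :=
  @Bool.rec (fun _ => Nat) (pP ih r S Y (yp (E p)) (rp (E p))) (J ih r S Y p) (Nat.ble NX p)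

def pe (s : Nat → Bool) (E : Nat → Nat) (J : (Nat → Nat → Nat → Nat) → Nat → Nat → Nat → Nat → Nat)
    (ih : Nat → Nat → Nat → Nat) (r S Y p : Nat) : Nat :=
  @Bool.rec (fun _ => Nat) (pA ih r S Y (Nat.lor S (E p))) (J ih r S Y p) (s p)

def pb (NB : Nat) (B : Nat → Nat) (J : (Nat → Nat → Nat → Nat) → Nat → Nat → Nat → Nat → Nat)
    (ih : Nat → Nat → Nat → Nat) (r S Y p : Nat) : Nat :=
  @Bool.rec (fun _ => Nat) (pA ih r S Y (Nat.lor S (B p))) (J ih r S Y p) (Nat.ble NB p)

/-- all steps of a pair -/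
def pj (NB NX NV k : Nat) (B E V : Nat → Nat) (yb : Nat → Bool) :
    (Nat → Nat → Nat → Nat) → Nat → Nat → Nat → Nat → Nat :=
  pb NB B (pe (sp NX yb) E (pv NX E (pw NV k V)))

/-! Records: chunks of eight, each chunk starts with the ends of its records, `w` bits each. -/

def re (w C j : Nat) : Nat :=
  Nat.land (Nat.shiftRight C (Nat.mul w j)) (Nat.sub (Nat.pow (nat_lit 2) w) (nat_lit 1))

def rs1 (w C q : Nat) (_ : Nat) : Nat := re w C q

/-- start of a record -/
def rs (w C j : Nat) : Nat := @Nat.rec (fun _ => Nat) (Nat.mul (nat_lit 8) w) (rs1 w C) j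

def rr (w C j : Nat) : Nat :=
  Nat.land (Nat.shiftRight C (rs w C j)) (Nat.sub (Nat.pow (nat_lit 2) (Nat.sub (re w C j) (rs w C j))) (nat_lit 1))

def rt1 (w lo ld i k : Nat) (_ : Nat) : Nat := rr w (lch lo ld k) (Nat.land i (nat_lit 7))

def rt (w lo ld i : Nat) : Nat :=
  @Nat.rec (fun _ => Nat) (nat_lit 0) (rt1 w lo ld i) (Nat.succ (Nat.shiftRight i (nat_lit 3)))

/-- records -/
def M8 (w mo md h p : Nat) : Nat := rt w mo md (rc h p)

/-! Computed entries. -/

/-- value of a computed entry -/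
def nE (N NB NX NV k : Nat) (B M V : Nat → Nat) (yb : Nat → Bool) (E : Nat → Nat) (p : Nat) : Nat :=
  @Bool.rec (fun _ => Nat) (nz (rn N (jj NB NX NV k B E V yb) (M p) (nat_lit 0)))
    (qn N (pj NB NX NV k B E V yb) (M p)) (yb p)

/-- the base of the digits: field 192 of the header without the last four bits, times `2 ^ (w - 11)` -/
def hN (h : Nat) : Nat :=
  Nat.shiftLeft (Nat.shiftRight (hf h (nat_lit 192)) (nat_lit 4)) (Nat.sub (hf h (nat_lit 0)) (nat_lit 11))

/-- number of the bits which are pushed back -/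
def hk (h : Nat) : Nat := Nat.sub (hf h (nat_lit 0)) (nat_lit 4)

/-- the first number of an inline hint -/
def hV (h : Nat) : Nat := Nat.sub (Nat.sub (hN h) (nat_lit 1)) (Nat.pow (nat_lit 2) (hk h))

def EB0 (h : Nat) (B M V : Nat → Nat) (yb : Nat → Bool) (_ : Nat) (E : Nat → Nat) (p : Nat) : Nat :=
  nE (hN h) (hf h (nat_lit 144)) (hf h (nat_lit 160)) (hV h) (hk h) B M V yb E p

/-- the levels of `ih a E` and below; `t a` is the first entry of the level `a` -/
def Eb (t : Nat → Nat) (ih : Nat → (Nat → Nat) → Nat → Nat) (a : Nat) (E : Nat → Nat) (p : Nat) : Nat :=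
  @Bool.rec (fun _ => Nat) (Nat.lor (E p) (nat_lit 0)) (Nat.lor (ih a E p) (nat_lit 0)) (Nat.ble (t a) p)

def EB2 (t : Nat → Nat) (ih : Nat → (Nat → Nat) → Nat → Nat) (a b : Nat) (E : Nat → Nat) (p : Nat) : Nat :=
  @Bool.rec (fun _ => Nat) (Nat.lor (ih a E p) (nat_lit 0)) (Nat.lor (ih b (Eb t ih a E) p) (nat_lit 0)) (Nat.ble (t b) p)

def EB1 (t : Nat → Nat) (k : Nat) (ih : Nat → (Nat → Nat) → Nat → Nat) (a : Nat) (E : Nat → Nat) (p : Nat) : Nat :=
  EB2 t ih a (Nat.add a (Nat.pow (nat_lit 2) k)) E p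

/-- the levels `a, …, a + 2 ^ k - 1`, below them `E` -/
def EB (h : Nat) (t : Nat → Nat) (B M V : Nat → Nat) (yb : Nat → Bool) (k : Nat) : Nat → (Nat → Nat) → Nat → Nat :=
  @Nat.rec (fun _ => Nat → (Nat → Nat) → Nat → Nat) (EB0 h B M V yb) (EB1 t) k

def E0 (_ : Nat) : Nat := tr

/-- all computed entries of a group; the last four bits of field 192 of the header are `k`, there are
`2 ^ k` levels -/
def D8 (TH TY : Nat) (B M V : Nat → Nat → Nat) (h : Nat) : Nat → Nat :=
  EB h (thr h TH) (B h) (M h) (V h) (yb TY h) (Nat.land (hf h (nat_lit 192)) (nat_lit 15)) (nat_lit 0) E0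

/-! Tables of sorted codes with buckets: for `0 < j ≤ 2 ^ k` the number of codes whose top `k` bits are
less than `j` (fields of `w` bits, the numbers are less than `2 ^ (w - 1)`), then the lower `c - k` bits of
all codes. The top bits of the entry `i` are the number of fields which are at most `i`: all fields are
compared with `i` by one subtraction, and the bits of the result are added by one multiplication. -/

/-- part of a table, start `a` and length `n` in units of 16 bits -/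
def bW (t a n : Nat) : Nat :=
  Nat.land (Nat.shiftRight t (Nat.mul (nat_lit 16) a)) (mk (Nat.mul (nat_lit 16) n))

/-- `1` in each of the `2 ^ k` fields of `w` bits -/
def bN (w k : Nat) : Nat := Nat.div (mk (Nat.mul w (Nat.pow (nat_lit 2) k))) (mk w)

/-- the top bit of each field -/
def bH (w k : Nat) : Nat := Nat.mul (bN w k) (Nat.pow (nat_lit 2) (Nat.sub w (nat_lit 1)))

/-- the fields -/
def bF (G w k : Nat) : Nat := Nat.land G (mk (Nat.mul w (Nat.pow (nat_lit 2) k)))

/-- top bits of the entry `i` -/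
def bK (G w k i : Nat) : Nat :=
  Nat.land (Nat.shiftRight (Nat.mul (Nat.shiftRight (Nat.land (Nat.sub (Nat.add (Nat.mul i (bN w k)) (bH w k))
    (bF G w k)) (bH w k)) (Nat.sub w (nat_lit 1))) (bN w k)) (Nat.mul w (Nat.sub (Nat.pow (nat_lit 2) k) (nat_lit 1)))) (mk w)

/-- the lower bits of all entries -/
def bL (G w k : Nat) : Nat := Nat.shiftRight G (Nat.mul w (Nat.pow (nat_lit 2) k))

/-- entry `i` of the table `G` of `c`-bit codes -/
def bC (c G w k i : Nat) : Nat :=
  Nat.lor (Nat.shiftLeft (bK G w k i) (Nat.sub c k))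
    (Nat.land (Nat.shiftRight (bL G w k) (Nat.mul (Nat.sub c k) i)) (mk (Nat.sub c k)))

/-! Field 48 of the header: three parameters `k` and `w - 1`, four bits each. -/

def k4 (h s : Nat) : Nat := Nat.land (Nat.shiftRight (hf h (nat_lit 48)) s) (nat_lit 15)

def hw (h : Nat) : Nat := Nat.succ (k4 h (nat_lit 12))

/-- table of the group -/
def wG (tb h : Nat) : Nat := bW tb (hf h (nat_lit 16)) (hf h (nat_lit 112))

/-- the table without its first part -/
def wC (tb h : Nat) : Nat :=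
  Nat.shiftRight (wG tb h) (Nat.add (Nat.mul (hw h) (Nat.pow (nat_lit 2) (k4 h (nat_lit 0))))
    (Nat.mul (hf h (nat_lit 32)) (Nat.sub (nat_lit 20) (k4 h (nat_lit 0)))))

def wV (tb h : Nat) : Nat :=
  Nat.shiftRight (wC tb h) (Nat.add (Nat.mul (hw h) (Nat.pow (nat_lit 2) (k4 h (nat_lit 4))))
    (Nat.mul (hf h (nat_lit 64)) (Nat.sub (nat_lit 23) (k4 h (nat_lit 4)))))

def tG8 (tb h i : Nat) : Nat := gn (bC (nat_lit 20) (wG tb h) (hw h) (k4 h (nat_lit 0)) i)

def tC8 (tb h i : Nat) : Nat := pn (bC (nat_lit 23) (wC tb h) (hw h) (k4 h (nat_lit 4)) i)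

/-- base clauses and imported clauses -/
def BB8 (G S : Nat → Nat) (m tb tz tw ti h : Nat) : Nat → Nat :=
  sw (hf h (nat_lit 32)) (tG8 tb h) (sw (hf h (nat_lit 64)) (tC8 tb h)
    (sw (hf h (nat_lit 96)) (tO G tz (hf h (nat_lit 80))) (sw (hf h (nat_lit 224)) (tW tw (hf h (nat_lit 208)))
      (tI S m ti))))

/-- vertex masks -/
def VV8 (tb h p : Nat) : Nat :=
  vn (bC (nat_lit 23) (wV tb h) (hw h) (k4 h (nat_lit 8)) (Nat.sub p (hf h (nat_lit 160))))

end

end Pool.Agent.H17.Z12.B8
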