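import Mathlib
import Pool.Agent.H13.Z12.Sound7
import Pool.Agent.H17.Z12.Defs8

/-!
Soundness of the computed entries of the eighth checker (MP_1e71f9_co).
-/

set_option autoImplicit false
set_option maxRecDepth 10000

namespace Pool.Agent.H17.Z12.B8

open Pool.Agent.H13.Z12 (lit Cl Fa)
open Pool.Agent.H13.Z12.B3 (tr CL CL_tr CL_of_Cl Ok sw)
open Pool.Agent.H13.Z12.B6 (W0 Gq good_tr lor_zero St Ks st_tr Ga good_nz nz fx lend cl good_fx tI)
open Pool.Agent.H13.Z12.B7 (Ok7 VG VG_vn good_pn stA stC stA_sound stV_sound stP_sound il_sound PV PV_tr Inv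
  Kp pV_sound pP_sound pend pend_sound GE GE_if GE_lor thr hf mm mul_mm cs_res CL_res CL_or CL_left CL_right tO
  tW)

variable {χ T : ℕ → Bool}

theorem cl_zero : cl 0 = 0 := by decide +kernel

theorem stA_zero {ih : ℕ → ℕ → ℕ} (h : Ks χ T ih) (r : ℕ) : St χ T (stA ih r (Nat.lor 0 0)) := by
  have e : Nat.lor 0 0 = 0 := by decide
  have e2 : stA ih r (Nat.lor 0 0) = stC ih r (Nat.lor 0 0) (cl (Nat.lor 0 0)) := rfl
  rw [e2, e, cl_zero]
  have e3 : stC ih r 0 0 = ih r 0 := rfl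
  rw [e3]
  exact h _ _ (Or.inl rfl)

/-- Step with a register which is empty or a clause. -/
theorem stA_sound' {ih : ℕ → ℕ → ℕ} (h : Ks χ T ih) {r S D : ℕ} (hS : St χ T S) (hD : St χ T D) :
    St χ T (stA ih r (Nat.lor S D)) := by
  rcases hD with hD | hD
  · subst hD
    rcases hS with hS | hS
    · subst hS
      exact stA_zero h r
    · have e : Nat.lor S 0 = Nat.lor 0 S := Nat.or_comm S 0
      rw [e]
      exact stA_sound h (Or.inl rfl) hS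
  · exact stA_sound h hS hD

theorem kk_sound {ih : ℕ → ℕ → ℕ} (h : Ks χ T ih) {S : ℕ} (hS : St χ T S) : Ks χ T (kk ih S) :=
  fun _ _ hB => stA_sound' h hS hB

/-- The derivation inside a derivation is sound. -/
def Ss (χ T : ℕ → Bool) (Sb : (ℕ → ℕ → ℕ) → ℕ → ℕ → ℕ) : Prop := ∀ ih, Ks χ T ih → Ks χ T (Sb ih)

/-- The step with a number is sound. -/
def J8 (χ T : ℕ → Bool) (J : ((ℕ → ℕ → ℕ) → ℕ → ℕ → ℕ) → (ℕ → ℕ → ℕ) → ℕ → ℕ → ℕ → ℕ) : Prop :=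
  ∀ Sb, Ss χ T Sb → ∀ ih, Ks χ T ih → ∀ r S p, St χ T S → St χ T (J Sb ih r S p)

theorem is_sound {G : ℕ → ℕ} (hG : Ok7 χ T G) {Sb : (ℕ → ℕ → ℕ) → ℕ → ℕ → ℕ} (hb : Ss χ T Sb)
    {ih : ℕ → ℕ → ℕ} (h : Ks χ T ih) : Ks χ T (is Sb ih) := by
  intro r S hS
  unfold is
  cases Nat.beq (Nat.land r (nat_lit 1)) (nat_lit 1)
  · exact il_sound hG h _ _ hS
  · exact hb ih h _ _ hS

theorem r1_sound {J : ((ℕ → ℕ → ℕ) → ℕ → ℕ → ℕ) → (ℕ → ℕ → ℕ) → ℕ → ℕ → ℕ → ℕ}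
    (hJ : J8 χ T J) {Sb : (ℕ → ℕ → ℕ) → ℕ → ℕ → ℕ} (hb : Ss χ T Sb) {N n : ℕ} {ih : ℕ → ℕ → ℕ}
    (h : Ks χ T ih) : Ks χ T (r1 N J Sb n ih) := by
  intro r S hS
  unfold r1
  cases Nat.mod r N with
  | zero => exact hS
  | succ p => exact hJ Sb hb ih h _ _ _ hS

theorem sb1_sound {J : ((ℕ → ℕ → ℕ) → ℕ → ℕ → ℕ) → (ℕ → ℕ → ℕ) → ℕ → ℕ → ℕ → ℕ}
    (hJ : J8 χ T J) {Sb : (ℕ → ℕ → ℕ) → ℕ → ℕ → ℕ} (hb : Ss χ T Sb) (N n : ℕ) :
    Ss χ T (sb1 N J n Sb) := by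
  intro ih h r S hS
  have key : ∀ n, Ks χ T (@Nat.rec (fun _ => Nat → Nat → Nat) (kk ih S) (r1 N J Sb) n) := by
    intro n
    induction n with
    | zero => exact kk_sound h hS
    | succ n ih' => exact r1_sound hJ hb ih'
  exact key _ _ _ (Or.inl rfl)

theorem sb_sound {J : ((ℕ → ℕ → ℕ) → ℕ → ℕ → ℕ) → (ℕ → ℕ → ℕ) → ℕ → ℕ → ℕ → ℕ}
    (hJ : J8 χ T J) (N k : ℕ) : Ss χ T (sb N J k) := by
  induction k with
  | zero => exact fun _ _ _ _ _ => st_tr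
  | succ k ih => exact sb1_sound hJ ih N k

theorem rn_sound {J : ((ℕ → ℕ → ℕ) → ℕ → ℕ → ℕ) → (ℕ → ℕ → ℕ) → ℕ → ℕ → ℕ → ℕ}
    (hJ : J8 χ T J) {N r S : ℕ} (hS : St χ T S) : St χ T (rn N J r S) := by
  have key : ∀ n, Ks χ T (@Nat.rec (fun _ => Nat → Nat → Nat) lend (r1 N J (sb N J (nat_lit 14))) n) := by
    intro n
    induction n with
    | zero => exact fun r S hS => hS
    | succ n ih => exact r1_sound hJ (sb_sound hJ N _) ih
  exact key (nat_lit 1023) r S hS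

theorem sp_false {NX p : ℕ} {yb : ℕ → Bool} (h : sp NX yb p = false) : yb p = false := by
  have h1 : (@Bool.rec (fun _ => Bool) (yb p) true (Nat.ble NX p) : Bool) = false := h
  revert h1
  cases Nat.ble NX p
  · exact fun h1 => h1
  · exact fun h1 => Bool.noConfusion h1

theorem sp_true {NX p : ℕ} {yb : ℕ → Bool} (h : sp NX yb p = true) (h2 : Nat.ble NX p = false) :
    yb p = true := by
  have h1 : (@Bool.rec (fun _ => Bool) (yb p) true (Nat.ble NX p) : Bool) = true := h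
  rw [h2] at h1
  exact h1

theorem jj_sound {G : ℕ → ℕ} (hG : Ok7 χ T G) {B E V : ℕ → ℕ} {yb : ℕ → Bool} (hB : Ga χ T B)
    (hE : GE χ T yb E) (hV : ∀ p, VG χ T (V p)) (NB NX NV k : ℕ) :
    J8 χ T (jj NB NX NV k B E V yb) := by
  intro Sb hb ih h r S p hS
  unfold jj jb
  cases Nat.ble NB p
  · exact stA_sound h hS (hB p)
  · change St χ T (je (sp NX yb) E (jv NX E (jw NV k V)) Sb ih r S p)
    unfold je
    cases hs : sp NX yb p
    · exact stA_sound h hS ((hE p).1 (sp_false hs))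
    · change St χ T (jv NX E (jw NV k V) Sb ih r S p)
      unfold jv
      cases hx : Nat.ble NX p
      · exact stP_sound h hS ((hE p).2 (sp_true hs hx))
      · change St χ T (jw NV k V Sb ih r S p)
        unfold jw
        cases Nat.ble NV p
        · exact stV_sound h hS (hV p)
        · exact is_sound hG hb h _ _ hS

/-! ### Pairs -/

theorem pR_sound {ih : ℕ → ℕ → ℕ → ℕ} (h : Kp χ T ih) {r S Y D : ℕ} (hS : Inv χ T S Y)
    (hD : Gq χ T D) : PV χ T (pR ih r S Y (Nat.lor S D) (cl (Nat.lor S D))) := by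
  unfold pR
  cases hc : Nat.beq (Nat.land (cl (Nat.lor S D)) (Nat.sub (cl (Nat.lor S D)) (nat_lit 1)))
      (nat_lit 0)
  · exact PV_tr
  · have hc' := Nat.eq_of_beq_eq_true hc
    refine h _ _ _ ⟨?_, fun hy => ?_⟩
    · rw [mul_mm hc']
      exact cs_res hS.1 hD.2 rfl hc'
    · have hs : CL χ T W0 S := by
        rcases CL_or hy with hy | ⟨i, i1, i2, i3⟩
        · exact hS.2 hy
        · refine ⟨i, i1, ?_, i3⟩
          have : (S &&& Nat.mul (cl (Nat.lor S D)) mm).testBit i = true := i2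
          rw [Nat.testBit_and, Bool.and_eq_true] at this
          exact this.1
      rw [mul_mm hc']
      exact CL_res ⟨hs, hS.1⟩ hD rfl hc'

theorem pO1_sound {ih : ℕ → ℕ → ℕ → ℕ} (h : Kp χ T ih) {r S Y D y : ℕ} (hS : Inv χ T S Y)
    (hD : Gq χ T D) : PV χ T (pO1 ih r S Y (Nat.lor S D) y) := by
  unfold pO1
  have e : Nat.lor (Nat.lor S D) y = Nat.lor (Nat.lor S y) D := by
    change (S ||| D) ||| y = (S ||| y) ||| D
    rw [Nat.or_assoc, Nat.or_assoc, Nat.or_comm D y]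
  rw [e]
  have e2 : pO2 ih r (Nat.lor S y) (Nat.lor Y y) (Nat.lor (Nat.lor S y) D) =
    @Bool.rec (fun _ => Nat) tr (pR ih r (Nat.lor S y) (Nat.lor Y y) (Nat.lor (Nat.lor S y) D)
      (cl (Nat.lor (Nat.lor S y) D))) (Nat.beq (cl (Nat.lor S y)) (nat_lit 0)) := rfl
  rw [e2]
  cases hc : Nat.beq (cl (Nat.lor S y)) (nat_lit 0)
  · exact PV_tr
  · refine pR_sound h ⟨Or.inr (Nat.eq_of_beq_eq_true hc), fun hy => ?_⟩ hD
    rcases CL_or hy with hy | hy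
    · exact CL_left (hS.2 hy)
    · exact CL_right hy

theorem pA_sound {ih : ℕ → ℕ → ℕ → ℕ} (h : Kp χ T ih) {r S Y D : ℕ} (hS : Inv χ T S Y)
    (hD : Gq χ T D) : PV χ T (pA ih r S Y (Nat.lor S D)) := by
  have e : pA ih r S Y (Nat.lor S D) = pC ih r S Y (Nat.lor S D) (cl (Nat.lor S D)) := rfl
  rw [e]
  unfold pC
  cases Nat.beq (cl (Nat.lor S D)) (nat_lit 0)
  · exact pR_sound h hS hD
  · change PV χ T (pO ih r S Y (Nat.lor S D))
    unfold pO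
    cases Nat.beq (Nat.land r (nat_lit 31)) (nat_lit 31)
    · exact pO1_sound h hS hD
    · exact pO1_sound h hS hD

theorem plC_sound {G : ℕ → ℕ} (hG : Ok7 χ T G) {ih : ℕ → ℕ → ℕ → ℕ} (h : Kp χ T ih) :
    Kp χ T (plC ih) := by
  intro r S Y hS
  unfold plC
  cases Nat.beq (Nat.land r (nat_lit 1)) (nat_lit 1)
  · exact pA_sound h hS (good_pn hG _)
  · exact pV_sound h hS (VG_vn hG _)

theorem pl_sound {G : ℕ → ℕ} (hG : Ok7 χ T G) {ih : ℕ → ℕ → ℕ → ℕ} (h : Kp χ T ih) :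
    Kp χ T (pl ih) := by
  intro r S Y hS
  unfold pl
  cases Nat.beq (Nat.land r (nat_lit 1)) (nat_lit 1)
  · exact pA_sound h hS (Pool.Agent.H17.Z12.good_gn hG.ok _)
  · exact plC_sound hG h _ _ _ hS

/-- The step of a pair with a number is sound. -/
def P8 (χ T : ℕ → Bool) (J : (ℕ → ℕ → ℕ → ℕ) → ℕ → ℕ → ℕ → ℕ → ℕ) : Prop :=
  ∀ ih, Kp χ T ih → ∀ r S Y p, Inv χ T S Y → PV χ T (J ih r S Y p)

theorem p1_sound {J : (ℕ → ℕ → ℕ → ℕ) → ℕ → ℕ → ℕ → ℕ → ℕ}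
    (hJ : P8 χ T J) {N n : ℕ} {ih : ℕ → ℕ → ℕ → ℕ} (h : Kp χ T ih) : Kp χ T (p1 N J n ih) := by
  intro r S Y hS
  unfold p1
  cases Nat.mod r N with
  | zero => exact pend_sound _ _ _ hS
  | succ p => exact hJ ih h _ _ _ _ hS

theorem qn_sound {J : (ℕ → ℕ → ℕ → ℕ) → ℕ → ℕ → ℕ → ℕ → ℕ} (hJ : P8 χ T J) (N r : ℕ) :
    PV χ T (qn N J r) := by
  have key : ∀ n, Kp χ T (@Nat.rec (fun _ => Nat → Nat → Nat → Nat) pend (p1 N J) n) := by
    intro n
    induction n with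
    | zero => exact pend_sound
    | succ n ih => exact p1_sound hJ ih
  have h0 : Inv χ T (nat_lit 0) (nat_lit 0) := ⟨Or.inr (by decide +kernel), fun h => h⟩
  exact key (nat_lit 1023) r (nat_lit 0) (nat_lit 0) h0

theorem pj_sound {G : ℕ → ℕ} (hG : Ok7 χ T G) {B E V : ℕ → ℕ} {yb : ℕ → Bool} (hB : Ga χ T B)
    (hE : GE χ T yb E) (hV : ∀ p, VG χ T (V p)) (NB NX NV k : ℕ) :
    P8 χ T (pj NB NX NV k B E V yb) := by
  intro ih h r S Y p hS
  unfold pj pb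
  cases Nat.ble NB p
  · exact pA_sound h hS (hB p)
  · change PV χ T (pe (sp NX yb) E (pv NX E (pw NV k V)) ih r S Y p)
    unfold pe
    cases hs : sp NX yb p
    · exact pA_sound h hS ((hE p).1 (sp_false hs))
    · change PV χ T (pv NX E (pw NV k V) ih r S Y p)
      unfold pv
      cases hx : Nat.ble NX p
      · exact pP_sound h hS ((hE p).2 (sp_true hs hx))
      · change PV χ T (pw NV k V ih r S Y p)
        unfold pw
        cases Nat.ble NV p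
        · exact pV_sound h hS (hV p)
        · exact pl_sound hG h _ _ _ hS

/-! ### Computed entries -/

theorem GE_nE {G : ℕ → ℕ} (hG : Ok7 χ T G) {B M V E : ℕ → ℕ} {yb : ℕ → Bool} (hB : Ga χ T B)
    (hV : ∀ p, VG χ T (V p)) (hE : GE χ T yb E) (N NB NX NV k : ℕ) :
    GE χ T yb (nE N NB NX NV k B M V yb E) := by
  intro p
  constructor
  · intro hy
    unfold nE
    rw [hy]
    exact good_nz (rn_sound (jj_sound hG hB hE hV NB NX NV k) (Or.inl rfl))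
  · intro hy
    unfold nE
    rw [hy]
    exact qn_sound (pj_sound hG hB hE hV NB NX NV k) _ _

theorem GE_Eb {yb : ℕ → Bool} {t : ℕ → ℕ} {ih : ℕ → (ℕ → ℕ) → ℕ → ℕ}
    (h : ∀ a E, GE χ T yb E → GE χ T yb (ih a E)) (a : ℕ) {E : ℕ → ℕ} (hE : GE χ T yb E) :
    GE χ T yb (Eb t ih a E) :=
  GE_if (GE_lor hE) (GE_lor (h a E hE)) (fun p => Nat.ble (t a) p)

theorem GE_EB {G : ℕ → ℕ} (hG : Ok7 χ T G) {B M V : ℕ → ℕ} {yb : ℕ → Bool} (hB : Ga χ T B)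
    (hV : ∀ p, VG χ T (V p)) (h : ℕ) (t : ℕ → ℕ) (k : ℕ) :
    ∀ a E, GE χ T yb E → GE χ T yb (EB h t B M V yb k a E) := by
  induction k with
  | zero => exact fun a E hE => GE_nE hG hB hV hE _ _ _ _ _
  | succ k ih =>
    intro a E hE
    exact GE_if (GE_lor (ih a E hE)) (GE_lor (ih _ _ (GE_Eb ih a hE)))
      (fun p => Nat.ble (t (Nat.add a (Nat.pow (nat_lit 2) k))) p)

theorem GE_E0 {yb : ℕ → Bool} : GE χ T yb E0 := fun _ => ⟨fun _ => good_tr, fun _ => PV_tr⟩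

theorem GE_D8 {G : ℕ → ℕ} (hG : Ok7 χ T G) {B M V : ℕ → ℕ → ℕ} (hB : ∀ h, Ga χ T (B h))
    (hV : ∀ h p, VG χ T (V h p)) (TH TY h : ℕ) :
    GE χ T (Pool.Agent.H13.Z12.B7.yb TY h) (D8 TH TY B M V h) :=
  GE_EB hG (hB h) (hV h) h _ _ _ _ GE_E0

/-! ### Base clauses -/

theorem good_BB8 {G S : ℕ → ℕ} (hG : Ok7 χ T G) {m : ℕ} (hS : ∀ i < m, Cl χ T (S i))
    (tb tz tw ti h : ℕ) : Ga χ T (BB8 G S m tb tz tw ti h) := by
  have hi : Ga χ T (tI S m ti) := by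
    intro i
    change Gq χ T (fx (@Bool.rec (fun _ => Nat) tr (S (Pool.Agent.H32.Z12.aT ti i))
      (Nat.ble (Nat.succ (Pool.Agent.H32.Z12.aT ti i)) m)))
    apply good_fx
    cases hb : Nat.ble (Nat.succ (Pool.Agent.H32.Z12.aT ti i)) m
    · exact CL_tr
    · exact CL_of_Cl (hS _ (Nat.le_of_ble_eq_true hb))
  exact Ga.sw (fun i => Pool.Agent.H17.Z12.good_gn hG.ok _) (Ga.sw (fun i => good_pn hG _)
    (Ga.sw (fun i => good_fx (CL_of_Cl (hG.ok.g _)))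
      (Ga.sw (fun i => Pool.Agent.H17.Z12.P.good_on hG.go _) hi _) _) _) _

end Pool.Agent.H17.Z12.B8
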