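import Mathlib
import Pool.Agent.H17.Z12.Sound8
import Pool.Agent.H13.Z12.Glue7

/-!
All clauses of a block of the eighth checker (MP_1e71f9_co).
-/

set_option autoImplicit false

namespace Pool.Agent.H17.Z12.B8

open Pool.Agent.H13.Z12 (Cl Fa)
open Pool.Agent.H13.Z12.B7 (Ok7 OC CG VG VG_vn good_CC)

variable {χ T : ℕ → Bool}

/-- **All clauses of a block**. -/
theorem good_C8 {G S : ℕ → ℕ} (hG : Ok7 χ T G) {m tb tz tw ti TY TH : ℕ} {M : ℕ → ℕ → ℕ}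
    (hS : ∀ i < m, Cl χ T (S i)) :
    OC χ T (CG TY (BB8 G S m tb tz tw ti) (D8 TH TY (BB8 G S m tb tz tw ti) M (VV8 tb))) := by
  have hB : ∀ h, Pool.Agent.H13.Z12.B6.Ga χ T (BB8 G S m tb tz tw ti h) :=
    fun h => good_BB8 hG hS tb tz tw ti h
  have hV : ∀ h p, VG χ T (VV8 tb h p) := fun h p => VG_vn hG _
  exact ⟨G, hG, fun h => good_CC (hB h) (GE_D8 hG hB hV TH TY h) _ _⟩

/-- All clauses of a block without imported clauses. -/
theorem good_C80 {G S : ℕ → ℕ} (hG : Ok7 χ T G) {tb tz tw ti TY TH : ℕ} {M : ℕ → ℕ → ℕ} :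
    OC χ T (CG TY (BB8 G S (nat_lit 0) tb tz tw ti)
      (D8 TH TY (BB8 G S (nat_lit 0) tb tz tw ti) M (VV8 tb))) :=
  good_C8 hG fun i hi => absurd hi (Nat.not_lt_zero i)

end Pool.Agent.H17.Z12.B8
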