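import Pool.Agent.H13.Z12.Defs10
import Pool.Agent.H17.Z12.G.G63

/-! Common import of the blocks (MP_1e71f9_co). -/
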