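import Pool.Agent.H13.Z12.Defs7

/-!
The pieces of a block in several theorems (MP_1e71f9_co).
-/

set_option autoImplicit false

namespace Pool.Agent.H17.Z12.B8

open Pool.Agent.H13.Z12.B7 (mu mu1)
open Pool.Agent.H32.Z12 (bnd)

noncomputable def mr1 (C : Nat → Nat → Nat → Nat) (HD PG : Nat) (P H : Nat → Nat) (a j : Nat) (ih : Bool) : Bool :=
  mu1 C HD PG P H (Nat.add a j) ih

/-- the pieces `a + n - 1, …, a` -/
noncomputable def mr (C : Nat → Nat → Nat → Nat) (HD PG : Nat) (P H : Nat → Nat) (a n : Nat) : Bool :=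
  @Nat.rec (fun _ => Bool) true (mr1 C HD PG P H a) n

theorem bnd_left {a b : Bool} (h : bnd a b = true) : a = true := by
  cases a
  · exact h
  · rfl

theorem bnd_intro {a b : Bool} (h1 : a = true) (h2 : b = true) : bnd a b = true := by
  rw [h1, h2]
  rfl

theorem bnd_right {a b : Bool} (h : bnd a b = true) : b = true := by
  have h1 := bnd_left h
  rw [h1] at h
  exact h

theorem mu_zero {C : Nat → Nat → Nat → Nat} {HD PG : Nat} {P H : Nat → Nat} :
    mu C HD PG P H (nat_lit 0) = true := rfl

theorem mu_add1 {C : Nat → Nat → Nat → Nat} {HD PG : Nat} {P H : Nat → Nat} {a n : Nat}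
    (h1 : mu C HD PG P H a = true) (h2 : mr C HD PG P H a n = true) :
    mu C HD PG P H (Nat.add a n) = true := by
  induction n with
  | zero => exact h1
  | succ n ih =>
    have h3 : mr1 C HD PG P H a n (mr C HD PG P H a n) = true := h2
    have h4 : mu1 C HD PG P H (Nat.add a n) (mr C HD PG P H a n) = true := h3
    have h5 : mu1 C HD PG P H (Nat.add a n) (mu C HD PG P H (Nat.add a n)) = true := by
      unfold mu1 at h4 ⊢
      exact bnd_intro (bnd_left h4) (ih (bnd_right h4))
    exact h5

/-- `a` pieces and the following `n` pieces -/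
theorem mu_add {C : Nat → Nat → Nat → Nat} {HD PG : Nat} {P H : Nat → Nat} (a n m : Nat)
    (e : Nat.add a n = m) (h1 : mu C HD PG P H a = true) (h2 : mr C HD PG P H a n = true) :
    mu C HD PG P H m = true := by
  subst e
  exact mu_add1 h1 h2

end Pool.Agent.H17.Z12.B8
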