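/-!
Literals of the blocks (MP_1e71f9_co): `a e b` stands for the number `a + 2 ^ 63 * b`.
-/

set_option autoImplicit false

namespace Pool.Agent.H17.Z12.W

/-- numbers of 126 bits, written with two words of 63 bits -/
def T : Type := Nat

noncomputable instance : OfScientific T := ⟨fun m _ e => Nat.lor m (Nat.shiftLeft e (nat_lit 63))⟩

/-- 32 parts of 126 bits: 4032 bits -/
noncomputable def J (a0 a1 a2 a3 a4 a5 a6 a7 a8 a9 a10 a11 a12 a13 a14 a15 a16 a17 a18 a19 a20 a21 a22 a23 a24 a25 a26 a27 a28 a29 a30 a31 : T) : Nat :=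
  (Nat.lor (Nat.lor (Nat.lor (Nat.lor (Nat.lor a0 (Nat.shiftLeft a1 (nat_lit 126))) (Nat.shiftLeft (Nat.lor a2 (Nat.shiftLeft a3 (nat_lit 126))) (nat_lit 252))) (Nat.shiftLeft (Nat.lor (Nat.lor a4 (Nat.shiftLeft a5 (nat_lit 126))) (Nat.shiftLeft (Nat.lor a6 (Nat.shiftLeft a7 (nat_lit 126))) (nat_lit 252))) (nat_lit 504))) (Nat.shiftLeft (Nat.lor (Nat.lor (Nat.lor a8 (Nat.shiftLeft a9 (nat_lit 126))) (Nat.shiftLeft (Nat.lor a10 (Nat.shiftLeft a11 (nat_lit 126))) (nat_lit 252))) (Nat.shiftLeft (Nat.lor (Nat.lor a12 (Nat.shiftLeft a13 (nat_lit 126))) (Nat.shiftLeft (Nat.lor a14 (Nat.shiftLeft a15 (nat_lit 126))) (nat_lit 252))) (nat_lit 504))) (nat_lit 1008))) (Nat.shiftLeft (Nat.lor (Nat.lor (Nat.lor (Nat.lor a16 (Nat.shiftLeft a17 (nat_lit 126))) (Nat.shiftLeft (Nat.lor a18 (Nat.shiftLeft a19 (nat_lit 126))) (nat_lit 252))) (Nat.shiftLeft (Nat.lor (Nat.lor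 a20 (Nat.shiftLeft a21 (nat_lit 126))) (Nat.shiftLeft (Nat.lor a22 (Nat.shiftLeft a23 (nat_lit 126))) (nat_lit 252))) (nat_lit 504))) (Nat.shiftLeft (Nat.lor (Nat.lor (Nat.lor a24 (Nat.shiftLeft a25 (nat_lit 126))) (Nat.shiftLeft (Nat.lor a26 (Nat.shiftLeft a27 (nat_lit 126))) (nat_lit 252))) (Nat.shiftLeft (Nat.lor (Nat.lor a28 (Nat.shiftLeft a29 (nat_lit 126))) (Nat.shiftLeft (Nat.lor a30 (Nat.shiftLeft a31 (nat_lit 126))) (nat_lit 252))) (nat_lit 504))) (nat_lit 1008))) (nat_lit 2016)))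

/-- 32 parts of 4032 bits: 129024 bits -/
noncomputable def K (a0 a1 a2 a3 a4 a5 a6 a7 a8 a9 a10 a11 a12 a13 a14 a15 a16 a17 a18 a19 a20 a21 a22 a23 a24 a25 a26 a27 a28 a29 a30 a31 : Nat) : Nat :=
  (Nat.lor (Nat.lor (Nat.lor (Nat.lor (Nat.lor a0 (Nat.shiftLeft a1 (nat_lit 4032))) (Nat.shiftLeft (Nat.lor a2 (Nat.shiftLeft a3 (nat_lit 4032))) (nat_lit 8064))) (Nat.shiftLeft (Nat.lor (Nat.lor a4 (Nat.shiftLeft a5 (nat_lit 4032))) (Nat.shiftLeft (Nat.lor a6 (Nat.shiftLeft a7 (nat_lit 4032))) (nat_lit 8064))) (nat_lit 16128))) (Nat.shiftLeft (Nat.lor (Nat.lor (Nat.lor a8 (Nat.shiftLeft a9 (nat_lit 4032))) (Nat.shiftLeft (Nat.lor a10 (Nat.shiftLeft a11 (nat_lit 4032))) (nat_lit 8064))) (Nat.shiftLeft (Nat.lor (Nat.lor a12 (Nat.shiftLeft a13 (nat_lit 4032))) (Nat.shiftLeft (Nat.lor a14 (Nat.shiftLeft a15 (nat_lit 4032))) (nat_lit 8064))) (nat_lit 16128))) (nat_lit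 32256))) (Nat.shiftLeft (Nat.lor (Nat.lor (Nat.lor (Nat.lor a16 (Nat.shiftLeft a17 (nat_lit 4032))) (Nat.shiftLeft (Nat.lor a18 (Nat.shiftLeft a19 (nat_lit 4032))) (nat_lit 8064))) (Nat.shiftLeft (Nat.lor (Nat.lor a20 (Nat.shiftLeft a21 (nat_lit 4032))) (Nat.shiftLeft (Nat.lor a22 (Nat.shiftLeft a23 (nat_lit 4032))) (nat_lit 8064))) (nat_lit 16128))) (Nat.shiftLeft (Nat.lor (Nat.lor (Nat.lor a24 (Nat.shiftLeft a25 (nat_lit 4032))) (Nat.shiftLeft (Nat.lor a26 (Nat.shiftLeft a27 (nat_lit 4032))) (nat_lit 8064))) (Nat.shiftLeft (Nat.lor (Nat.lor a28 (Nat.shiftLeft a29 (nat_lit 4032))) (Nat.shiftLeft (Nat.lor a30 (Nat.shiftLeft a31 (nat_lit 4032))) (nat_lit 8064))) (nat_lit 16128))) (nat_lit 32256))) (nat_lit 64512)))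

end Pool.Agent.H17.Z12.W
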